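import Pool.Agent.Lib.MP_cb3775_ag.C.Bdd

/-!
# A holomorphic function on the complement of a hypersurface which is meromorphic along all arcs is rational

Proof text: see `C/Slice.lean`.
-/

set_option autoImplicit false

namespace MP_cb3775_ag

open Filter Topology

theorem baire_eval_aeval {n : ℕ} (i : Fin n) (p : Polynomial ℂ) (x : Fin n → ℂ) :
    MvPolynomial.eval x (Polynomial.aeval (MvPolynomial.X i : MvPolynomial (Fin n) ℂ) p)
      = p.eval (x i) := by
  induction p using Polynomial.induction_on' with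
  | add p q hp hq => rw [map_add, map_add, hp, hq, Polynomial.eval_add]
  | monomial m a =>
    rw [Polynomial.aeval_monomial, map_mul, map_pow, MvPolynomial.eval_X,
      Polynomial.eval_monomial, MvPolynomial.algebraMap_eq, MvPolynomial.eval_C]

theorem baire_analyticAt_eval {n : ℕ} (p : MvPolynomial (Fin n) ℂ) (x : Fin n → ℂ) :
    AnalyticAt ℂ (fun y => MvPolynomial.eval y p) x :=
  AnalyticOnNhd.eval_mvPolynomial p x (Set.mem_univ x)

/-- `d + 1` distinct good values of the first coordinate over a point of `O`. -/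
theorem baire_points {n : ℕ} (δ : MvPolynomial (Fin (n + 1)) ℂ) (hδ : δ ≠ 0)
    (O : Set (Fin n → ℂ)) (hO : IsOpen O) (hOn : O.Nonempty) (d : ℕ) :
    ∃ x' ∈ O, ∃ l : Fin (d + 1) → ℂ, Function.Injective l ∧
      ∀ j, MvPolynomial.eval (Fin.cons (l j) x' : Fin (n + 1) → ℂ) δ ≠ 0 := by
  have htail : Continuous (fun (x : Fin (n + 1) → ℂ) (i : Fin n) => x i.succ) := by fun_prop
  obtain ⟨y, hy⟩ := hOn
  have hne : ((fun (x : Fin (n + 1) → ℂ) (i : Fin n) => x i.succ) ⁻¹' O).Nonempty :=
    ⟨Fin.cons 0 y, by simpa using hy⟩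
  obtain ⟨x, hx1, hx2⟩ := (dense_ne δ hδ).inter_open_nonempty _ (hO.preimage htail) hne
  set x' : Fin n → ℂ := fun i => x i.succ with hx'
  have hcons : (Fin.cons (x 0) x' : Fin (n + 1) → ℂ) = x := by
    funext i
    refine Fin.cases ?_ (fun i => ?_) i
    · simp
    · simp [hx']
  have hcont : Continuous (fun l : ℂ => (Fin.cons l x' : Fin (n + 1) → ℂ)) := by
    refine continuous_pi fun i => ?_
    refine Fin.cases ?_ (fun i => ?_) i
    · simpa using continuous_id'
    · simpa using continuous_const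
  have hop : IsOpen {l : ℂ | MvPolynomial.eval (Fin.cons l x' : Fin (n + 1) → ℂ) δ ≠ 0} :=
    (isOpen_ne δ).preimage hcont
  have hinf : {l : ℂ | MvPolynomial.eval (Fin.cons l x' : Fin (n + 1) → ℂ) δ ≠ 0}.Infinite := by
    apply infinite_of_mem_nhds (x 0)
    apply hop.mem_nhds
    change MvPolynomial.eval (Fin.cons (x 0) x' : Fin (n + 1) → ℂ) δ ≠ 0
    rw [hcons]
    exact hx2
  have := hinf.to_subtype
  let e := Infinite.natEmbedding {l : ℂ | MvPolynomial.eval (Fin.cons l x' : Fin (n + 1) → ℂ) δ ≠ 0}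
  refine ⟨x', hx1, fun j => (e j : ℂ), ?_, fun j => (e j).2⟩
  intro a b hab
  exact Fin.ext (e.injective (Subtype.ext hab))

theorem rational_of_arcs {n : ℕ} (δ : MvPolynomial (Fin n) ℂ) (hδ : δ ≠ 0)
    (h : (Fin n → ℂ) → ℂ) (hh : ArcRational δ h) :
    ∃ A b : MvPolynomial (Fin n) ℂ, b ≠ 0 ∧ ∀ x, MvPolynomial.eval x δ ≠ 0 →
      MvPolynomial.eval x b * h x = MvPolynomial.eval x A := by
  induction n with
  | zero =>
    refine ⟨MvPolynomial.C (h default), 1, one_ne_zero, fun x _ => ?_⟩
    rw [map_one, one_mul, MvPolynomial.eval_C, Subsingleton.elim x default]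
  | succ n ih =>
    obtain ⟨k, d, O, hO, hOn, hOd⟩ := bounded_degree δ hδ h hh
    obtain ⟨x₀', hx₀', l, hlinj, hl⟩ := baire_points δ hδ O hO hOn d
    choose δl hδl harc using fun j => arcRational_slice δ h hh (l j)
    have hδl0 : ∀ j, δl j ≠ 0 := by
      intro j h0
      apply hl j
      rw [← hδl j x₀', h0, map_zero]
    choose Al bl hbl hAl using fun j => ih (δl j) (hδl0 j) _ (harc j)
    classical
    let B : MvPolynomial (Fin n) ℂ := ∏ j, bl j
    let b : MvPolynomial (Fin (n + 1)) ℂ := MvPolynomial.rename Fin.succ B * δ ^ k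
    let A : MvPolynomial (Fin (n + 1)) ℂ := ∑ j, Polynomial.aeval (MvPolynomial.X 0)
      (Lagrange.basis Finset.univ l j) *
      MvPolynomial.rename Fin.succ (δl j ^ k * (∏ i ∈ Finset.univ.erase j, bl i) * Al j)
    have hB : B ≠ 0 := Finset.prod_ne_zero_iff.2 fun j _ => hbl j
    have hb : b ≠ 0 := mul_ne_zero
      (by rwa [Ne, MvPolynomial.rename_eq_zero_iff_of_injective _ (Fin.succ_injective n)])
      (pow_ne_zero _ hδ)
    refine ⟨A, b, hb, ?_⟩
    have hkey : ∀ x' ∈ O, (∀ j, MvPolynomial.eval x' (δl j) ≠ 0) → ∀ z : ℂ,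
        MvPolynomial.eval (Fin.cons z x' : Fin (n + 1) → ℂ) δ ≠ 0 →
        MvPolynomial.eval (Fin.cons z x' : Fin (n + 1) → ℂ) b * h (Fin.cons z x') =
          MvPolynomial.eval (Fin.cons z x' : Fin (n + 1) → ℂ) A := by
      intro x' hx' hx'l z hz
      obtain ⟨P, hPd, hP⟩ := hOd x' hx'
      have hdeg : P.degree < (Finset.univ : Finset (Fin (d + 1))).card := by
        rw [Finset.card_univ, Fintype.card_fin]
        refine lt_of_le_of_lt Polynomial.degree_le_natDegree ?_
        exact_mod_cast Nat.lt_succ_of_le hPd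
      have hint := Lagrange.eq_interpolate_of_eval_eq (s := Finset.univ) (v := l)
        (r := fun j => P.eval (l j)) hlinj.injOn hdeg (fun _ _ => rfl)
      have htailc : (Fin.cons z x' : Fin (n + 1) → ℂ) ∘ Fin.succ = x' := by
        funext i
        simp
      have e1 : MvPolynomial.eval (Fin.cons z x' : Fin (n + 1) → ℂ) b * h (Fin.cons z x') =
          (∏ j, MvPolynomial.eval x' (bl j)) * P.eval z := by
        simp only [b, B, map_mul, map_pow, MvPolynomial.eval_rename, htailc, map_prod]
        rw [mul_assoc, hP z hz]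
      rw [e1]
      have e2 : P.eval z = ∑ j, P.eval (l j) * (Lagrange.basis Finset.univ l j).eval z := by
        conv_lhs => rw [hint]
        rw [Lagrange.interpolate_apply, Polynomial.eval_finsetSum]
        exact Finset.sum_congr rfl fun j _ => by rw [Polynomial.eval_mul, Polynomial.eval_C]
      rw [e2, Finset.mul_sum]
      simp only [A, map_sum, map_mul, baire_eval_aeval, MvPolynomial.eval_rename, htailc,
        map_pow, map_prod, Fin.cons_zero]
      refine Finset.sum_congr rfl fun j _ => ?_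
      have e3 : P.eval (l j) = MvPolynomial.eval x' (δl j) ^ k * h (Fin.cons (l j) x') := by
        rw [← hP (l j) (by rw [← hδl]; exact hx'l j), hδl]
      have e4 : (∏ i, MvPolynomial.eval x' (bl i)) =
          MvPolynomial.eval x' (bl j) * ∏ i ∈ Finset.univ.erase j, MvPolynomial.eval x' (bl i) :=
        (Finset.mul_prod_erase _ _ (Finset.mem_univ j)).symm
      have e5 := hAl j x' (hx'l j)
      rw [e3, e4, ← e5]
      ring
    have hx0 : ∀ x : Fin (n + 1) → ℂ, (Fin.cons (x 0) (fun i => x i.succ) : Fin (n + 1) → ℂ) = x := by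
      intro x
      funext i
      refine Fin.cases ?_ (fun i => ?_) i
      · simp
      · simp
    apply identity_ne δ (fun x => MvPolynomial.eval x b * h x) (fun x => MvPolynomial.eval x A)
      (fun x hx => (baire_analyticAt_eval b x).mul (hh.1 x hx))
      (fun x _ => baire_analyticAt_eval A x) (Fin.cons (l 0) x₀') (hl 0)
    have hopen : IsOpen ({x : Fin (n + 1) → ℂ | MvPolynomial.eval x δ ≠ 0} ∩
        (fun (x : Fin (n + 1) → ℂ) (i : Fin n) => x i.succ) ⁻¹'
          (O ∩ ⋂ j, {x' | MvPolynomial.eval x' (δl j) ≠ 0})) :=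
      (isOpen_ne δ).inter ((hO.inter (isOpen_iInter_of_finite fun j => isOpen_ne (δl j))).preimage
        (by fun_prop))
    have hmem : (Fin.cons (l 0) x₀' : Fin (n + 1) → ℂ) ∈
        ({x : Fin (n + 1) → ℂ | MvPolynomial.eval x δ ≠ 0} ∩
        (fun (x : Fin (n + 1) → ℂ) (i : Fin n) => x i.succ) ⁻¹'
          (O ∩ ⋂ j, {x' | MvPolynomial.eval x' (δl j) ≠ 0})) := by
      refine ⟨hl 0, ?_, ?_⟩
      · simpa using hx₀'
      · rw [Set.mem_iInter]
        intro j
        change MvPolynomial.eval (fun i : Fin n => (Fin.cons (l 0) x₀' : Fin (n + 1) → ℂ) i.succ)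
          (δl j) ≠ 0
        simp only [Fin.cons_succ]
        rw [hδl]
        exact hl j
    filter_upwards [hopen.mem_nhds hmem] with x hx
    have := hkey (fun i => x i.succ) hx.2.1 (fun j => Set.mem_iInter.1 hx.2.2 j) (x 0)
      (by rw [hx0]; exact hx.1)
    rwa [hx0] at this

end MP_cb3775_ag
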