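import Pool.Agent.Lib.MP_cb3775_ag.C.Slice

/-!
# Uniform exponent and degree on an open set (Baire)

Proof text: see `C/Slice.lean`.
-/

set_option autoImplicit false

namespace MP_cb3775_ag

open Filter Topology

/-- the slice polynomial in the first variable. -/
private lemma bdd_eval {n : ℕ} (δ : MvPolynomial (Fin (n + 1)) ℂ) (x' : Fin n → ℂ) (l : ℂ) :
    MvPolynomial.eval (Fin.cons l x') δ =
      (Polynomial.map (MvPolynomial.eval x') (MvPolynomial.finSuccEquiv ℂ n δ)).eval l :=
  MvPolynomial.eval_eq_eval_mv_eval' x' l δ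

private lemma bdd_infinite {n : ℕ} (δ : MvPolynomial (Fin (n + 1)) ℂ) (x' : Fin n → ℂ)
    (hx : ∃ l : ℂ, MvPolynomial.eval (Fin.cons l x') δ ≠ 0) :
    {l : ℂ | MvPolynomial.eval (Fin.cons l x') δ ≠ 0}.Infinite := by
  set q := Polynomial.map (MvPolynomial.eval x') (MvPolynomial.finSuccEquiv ℂ n δ) with hq
  have hq0 : q ≠ 0 := by
    rintro h0
    obtain ⟨l, hl⟩ := hx
    apply hl
    rw [bdd_eval, ← hq, h0, Polynomial.eval_zero]
  have hfin : {l : ℂ | MvPolynomial.eval (Fin.cons l x') δ = 0}.Finite := by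
    refine (Polynomial.finite_setOfPred_isRoot hq0).subset ?_
    intro l hl
    have : MvPolynomial.eval (Fin.cons l x') δ = 0 := hl
    rw [bdd_eval] at this
    exact this
  have := hfin.infinite_compl
  exact this

private lemma bdd_continuous {n : ℕ} (l : ℂ) :
    Continuous (fun x' : Fin n → ℂ => (Fin.cons l x' : Fin (n + 1) → ℂ)) := by
  refine continuous_pi ?_
  intro i
  refine Fin.cases ?_ ?_ i
  · simpa using continuous_const
  · intro j
    simpa using continuous_apply j

private lemma bdd_continuous_eval {n : ℕ} (δ : MvPolynomial (Fin (n + 1)) ℂ) (l : ℂ) :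
    Continuous (fun x' : Fin n → ℂ => MvPolynomial.eval (Fin.cons l x') δ) :=
  (MvPolynomial.continuous_eval δ).comp (bdd_continuous l)

private lemma bdd_cont {n : ℕ} (δ : MvPolynomial (Fin (n + 1)) ℂ)
    (h : (Fin (n + 1) → ℂ) → ℂ) (hh : ArcRational δ h) (k : ℕ) (l : ℂ) (x' : Fin n → ℂ)
    (hl : MvPolynomial.eval (Fin.cons l x') δ ≠ 0) :
    ContinuousAt (fun x' : Fin n → ℂ => (MvPolynomial.eval (Fin.cons l x') δ) ^ k *
      h (Fin.cons l x')) x' := by
  have h1 : ContinuousAt h (Fin.cons l x' : Fin (n + 1) → ℂ) := (hh.1 _ hl).continuousAt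
  have h2 : ContinuousAt (fun x' : Fin n → ℂ => h (Fin.cons l x')) x' :=
    ContinuousAt.comp (g := h) (f := fun x' : Fin n → ℂ => (Fin.cons l x' : Fin (n + 1) → ℂ)) h1
      (bdd_continuous l).continuousAt
  exact ((bdd_continuous_eval δ l).continuousAt.pow k).mul h2

/-- Baire: uniform exponent and degree on a nonempty open set. -/
theorem bounded_degree {n : ℕ} (δ : MvPolynomial (Fin (n + 1)) ℂ) (hδ : δ ≠ 0)
    (h : (Fin (n + 1) → ℂ) → ℂ) (hh : ArcRational δ h) :
    ∃ (k d : ℕ) (O : Set (Fin n → ℂ)), IsOpen O ∧ O.Nonempty ∧ ∀ x' ∈ O,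
      ∃ A : Polynomial ℂ, A.natDegree ≤ d ∧ ∀ l : ℂ, MvPolynomial.eval (Fin.cons l x') δ ≠ 0 →
        (MvPolynomial.eval (Fin.cons l x') δ) ^ k * h (Fin.cons l x') = A.eval l := by
  classical
  set G : Set (Fin n → ℂ) := {x' | ∃ l : ℂ, MvPolynomial.eval (Fin.cons l x') δ ≠ 0} with hG
  have hGo : IsOpen G := by
    have : G = ⋃ l : ℂ, {x' : Fin n → ℂ | MvPolynomial.eval (Fin.cons l x') δ ≠ 0} := by
      ext x'; simp [hG]
    rw [this]
    exact isOpen_iUnion fun l => isOpen_ne_fun (bdd_continuous_eval δ l) continuous_const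
  have hGn : G.Nonempty := by
    by_contra hne
    apply hδ
    apply MvPolynomial.funext
    intro x
    rw [map_zero]
    by_contra hx
    apply hne
    refine ⟨Fin.tail x, x 0, ?_⟩
    rwa [Fin.cons_self_tail]
  let Z : ℕ × ℕ → Set (Fin n → ℂ) := fun kd => {x' | x' ∈ G ∧
    ∃ A : Polynomial ℂ, A.natDegree ≤ kd.2 ∧ ∀ l : ℂ, MvPolynomial.eval (Fin.cons l x') δ ≠ 0 →
        (MvPolynomial.eval (Fin.cons l x') δ) ^ kd.1 * h (Fin.cons l x') = A.eval l}
  have hZcl : ∀ kd, ∀ x' ∈ G, x' ∈ closure (Z kd) → x' ∈ Z kd := by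
    rintro ⟨k, d⟩ x₀ hx₀ hcl
    refine ⟨hx₀, ?_⟩
    obtain ⟨t, ht, htc⟩ := (bdd_infinite δ x₀ hx₀).exists_subset_card_eq (d + 1)
    let r : (Fin n → ℂ) → ℂ → ℂ := fun x' l =>
      (MvPolynomial.eval (Fin.cons l x') δ) ^ k * h (Fin.cons l x')
    have hinj : Set.InjOn (id : ℂ → ℂ) (t : Set ℂ) := Function.injective_id.injOn
    have hdeg : (Lagrange.interpolate t id (r x₀)).degree < ((d + 1 : ℕ) : WithBot ℕ) := by
      have := Lagrange.degree_interpolate_lt (r x₀) hinj
      rwa [htc] at this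
    refine ⟨Lagrange.interpolate t id (r x₀), ?_, ?_⟩
    · have h1 : (Lagrange.interpolate t id (r x₀)).natDegree < d + 1 := by
        by_cases h0 : Lagrange.interpolate t id (r x₀) = 0
        · rw [h0, Polynomial.natDegree_zero]; exact Nat.succ_pos d
        · exact (Polynomial.natDegree_lt_iff_degree_lt h0).2 hdeg
      exact Nat.lt_succ_iff.1 h1
    · intro l hl
      have hc1 : ContinuousAt (fun x' => r x' l) x₀ := bdd_cont δ h hh k l x₀ hl
      have hc2 : ContinuousAt (fun x' => (Lagrange.interpolate t id (r x')).eval l) x₀ := by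
        have : (fun x' => (Lagrange.interpolate t id (r x')).eval l) =
            fun x' => ∑ j ∈ t, r x' j * (Lagrange.basis t id j).eval l := by
          funext x'
          simp [Lagrange.interpolate_apply, Polynomial.eval_finsetSum]
        rw [this]
        refine tendsto_finsetSum _ ?_
        intro j hj
        exact (bdd_cont δ h hh k j x₀ (ht hj)).mul continuousAt_const
      have hev : ∃ᶠ x' in 𝓝 x₀, r x' l = (Lagrange.interpolate t id (r x')).eval l := by
        have h1 : ∃ᶠ x' in 𝓝 x₀, x' ∈ Z (k, d) := mem_closure_iff_frequently.1 hcl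
        have h2 : ∀ᶠ x' in 𝓝 x₀, ∀ j ∈ insert l t, MvPolynomial.eval (Fin.cons j x') δ ≠ 0 := by
          rw [Filter.eventually_all_finset]
          intro j hj
          have hj' : MvPolynomial.eval (Fin.cons j x₀) δ ≠ 0 := by
            rcases Finset.mem_insert.1 hj with rfl | hj
            · exact hl
            · exact ht hj
          exact (bdd_continuous_eval δ j).continuousAt.eventually_ne hj'
        refine (h1.and_eventually h2).mono ?_
        rintro x' ⟨⟨-, A, hA, hAe⟩, hne⟩
        have hAi : A = Lagrange.interpolate t id (r x') := by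
          refine Lagrange.eq_interpolate_of_eval_eq _ hinj ?_ ?_
          · rw [htc]
            exact lt_of_le_of_lt Polynomial.degree_le_natDegree
              (by exact_mod_cast Nat.lt_succ_of_le hA)
          · intro j hj
            exact (hAe j (hne j (Finset.mem_insert_of_mem hj))).symm
        rw [← hAi]
        exact hAe l (hne l (Finset.mem_insert_self _ _))
      by_contra hcon
      have hne : ∀ᶠ x' in 𝓝 x₀, r x' l ≠ (Lagrange.interpolate t id (r x')).eval l :=
        (hc1.prodMk hc2).eventually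
          ((isOpen_ne_fun continuous_fst continuous_snd).mem_nhds hcon)
      exact hev hne
  let f : Option (ℕ × ℕ) → Set (Fin n → ℂ) := fun o => o.elim Gᶜ fun kd => closure (Z kd)
  have hfc : ∀ o, IsClosed (f o) := by
    rintro (_ | kd)
    · exact hGo.isClosed_compl
    · exact isClosed_closure
  have hfU : ⋃ o, f o = Set.univ := by
    rw [Set.eq_univ_iff_forall]
    intro x'
    rw [Set.mem_iUnion]
    by_cases hx : x' ∈ G
    · obtain ⟨k, A, hA⟩ := slice δ h hh x' hx
      exact ⟨some (k, A.natDegree), subset_closure ⟨hx, A, le_rfl, hA⟩⟩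
    · exact ⟨none, hx⟩
  obtain ⟨x₁, hx₁G, hx₁⟩ :=
    (dense_iUnion_interior_of_closed hfc hfU).inter_open_nonempty G hGo hGn
  obtain ⟨o, ho⟩ := Set.mem_iUnion.1 hx₁
  rcases o with _ | ⟨k, d⟩
  · exact absurd hx₁G (interior_subset ho)
  · refine ⟨k, d, G ∩ interior (closure (Z (k, d))), hGo.inter isOpen_interior, ⟨x₁, hx₁G, ho⟩, ?_⟩
    rintro x' ⟨hxG, hxi⟩
    exact (hZcl (k, d) x' hxG (interior_subset hxi)).2

end MP_cb3775_ag
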