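import Pool.Agent.Lib.MP_cb3775_ag.B.Sect

/-!
# The complement of a hypersurface in `C^n` and the identity theorem

Hints: two points of `{δ ≠ 0}` lie on a complex line; on the line `δ` is a nonzero polynomial in one
variable, so the line minus its finitely many zeros is path connected
(`Set.Countable.isPathConnected_compl_of_one_lt_rank`), and its image is in `{δ ≠ 0}`. Identity theorem:
`AnalyticOnNhd.eqOn_of_preconnected_of_eventuallyEq`.
-/

set_option autoImplicit false

namespace MP_cb3775_ag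

open Filter Topology

theorem isOpen_ne {n : ℕ} (δ : MvPolynomial (Fin n) ℂ) :
    IsOpen {x : Fin n → ℂ | MvPolynomial.eval x δ ≠ 0} :=
  isOpen_compl_singleton.preimage (MvPolynomial.continuous_eval δ)

/-- the restriction of `δ` to the line through `x` and `y`. -/
private noncomputable def conn_line {n : ℕ} (δ : MvPolynomial (Fin n) ℂ) (x y : Fin n → ℂ) :
    Polynomial ℂ :=
  MvPolynomial.aeval (fun i => Polynomial.C (x i) + Polynomial.X * Polynomial.C (y i - x i)) δ

private theorem conn_line_eval {n : ℕ} (δ : MvPolynomial (Fin n) ℂ) (x y : Fin n → ℂ) (t : ℂ) :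
    (conn_line δ x y).eval t = MvPolynomial.eval (fun i => x i + t * (y i - x i)) δ := by
  unfold conn_line
  have h : (Polynomial.evalRingHom t).comp (MvPolynomial.aeval
      (fun i => Polynomial.C (x i) + Polynomial.X * Polynomial.C (y i - x i)) :
        MvPolynomial (Fin n) ℂ →ₐ[ℂ] Polynomial ℂ).toRingHom =
      MvPolynomial.eval (fun i => x i + t * (y i - x i)) := by
    apply MvPolynomial.ringHom_ext
    · intro c
      simp
    · intro i
      simp
  exact congrArg (fun φ => φ δ) h

private theorem conn_line_cont {n : ℕ} (x y : Fin n → ℂ) :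
    Continuous fun t : ℂ => (fun i => x i + t * (y i - x i) : Fin n → ℂ) := by
  fun_prop

private theorem conn_finite {n : ℕ} (δ : MvPolynomial (Fin n) ℂ) (x y : Fin n → ℂ) (t₀ : ℂ)
    (h : (conn_line δ x y).eval t₀ ≠ 0) : {t : ℂ | (conn_line δ x y).eval t = 0}.Finite := by
  have h0 : conn_line δ x y ≠ 0 := by
    intro h1
    rw [h1, Polynomial.eval_zero] at h
    exact h rfl
  exact Polynomial.finite_setOfPred_isRoot h0

theorem isPreconnected_ne {n : ℕ} (δ : MvPolynomial (Fin n) ℂ) :
    IsPreconnected {x : Fin n → ℂ | MvPolynomial.eval x δ ≠ 0} := by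
  apply isPreconnected_of_forall_pair
  intro x hx y hy
  have h0 : (conn_line δ x y).eval 0 ≠ 0 := by
    rw [conn_line_eval]
    simpa using hx
  have h1 : (conn_line δ x y).eval 1 ≠ 0 := by
    rw [conn_line_eval]
    simpa using hy
  have hfin := conn_finite δ x y 0 h0
  have hc : IsPathConnected ({t : ℂ | (conn_line δ x y).eval t = 0}ᶜ) := by
    apply Set.Countable.isPathConnected_compl_of_one_lt_rank _ hfin.countable
    rw [Complex.rank_real_complex]
    exact Nat.one_lt_ofNat
  refine ⟨(fun t : ℂ => (fun i => x i + t * (y i - x i) : Fin n → ℂ)) ''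
    ({t : ℂ | (conn_line δ x y).eval t = 0}ᶜ), ?_, ?_, ?_, ?_⟩
  · rintro _ ⟨t, ht, rfl⟩
    have h2 : (conn_line δ x y).eval t ≠ 0 := ht
    rw [conn_line_eval] at h2
    exact h2
  · exact ⟨0, h0, by simp⟩
  · exact ⟨1, h1, by simp⟩
  · exact hc.isConnected.isPreconnected.image _ (conn_line_cont x y).continuousOn

theorem dense_ne {n : ℕ} (δ : MvPolynomial (Fin n) ℂ) (hδ : δ ≠ 0) :
    Dense {x : Fin n → ℂ | MvPolynomial.eval x δ ≠ 0} := by
  intro x
  obtain ⟨y, hy⟩ : ∃ y : Fin n → ℂ, MvPolynomial.eval y δ ≠ 0 := by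
    by_contra h
    push Not at h
    apply hδ
    apply MvPolynomial.funext
    intro y
    rw [h y, map_zero]
  have h1 : (conn_line δ x y).eval 1 ≠ 0 := by
    rw [conn_line_eval]
    simpa using hy
  have hfin := conn_finite δ x y 1 h1
  have hd : Dense ({t : ℂ | (conn_line δ x y).eval t = 0}ᶜ) := hfin.countable.dense_compl ℝ
  have h2 := map_mem_closure (conn_line_cont x y) (hd 0)
    (t := {x : Fin n → ℂ | MvPolynomial.eval x δ ≠ 0}) (by
      intro t ht
      have h3 : (conn_line δ x y).eval t ≠ 0 := ht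
      rw [conn_line_eval] at h3
      exact h3)
  simpa using h2

theorem identity_ne {n : ℕ} (δ : MvPolynomial (Fin n) ℂ) (f g : (Fin n → ℂ) → ℂ)
    (hf : ∀ x, MvPolynomial.eval x δ ≠ 0 → AnalyticAt ℂ f x)
    (hg : ∀ x, MvPolynomial.eval x δ ≠ 0 → AnalyticAt ℂ g x) (x₀ : Fin n → ℂ)
    (h₀ : MvPolynomial.eval x₀ δ ≠ 0) (h : ∀ᶠ x in 𝓝 x₀, f x = g x) :
    ∀ x, MvPolynomial.eval x δ ≠ 0 → f x = g x := by
  intro x hx
  exact AnalyticOnNhd.eqOn_of_preconnected_of_eventuallyEq (f := f) (g := g)
    (U := {x : Fin n → ℂ | MvPolynomial.eval x δ ≠ 0}) (fun x hx => hf x hx)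
    (fun x hx => hg x hx) (isPreconnected_ne δ) (z₀ := x₀) h₀ h hx

end MP_cb3775_ag
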