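import Pool.Agent.Lib.MP_cb3775_ag.B.Sect

/-!
# The branches of `S` over an arc in `{δ ≠ 0}` (Puiseux)

PROOF. `holomorphic_roots`: the projection of `{(z, y) : z ∈ Ω, P (a z) y = 0}` to `Ω` is a covering map
(local sections by `Base.section_exists` and the exact number of roots, `Base.card_roots`; either build the
local trivialisations, or `IsClosedMap.isCoveringMapOn_of_isLocalHomeomorphOn`), `Ω` is convex, so
simply connected and locally path connected: lift the identity through each of the points above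
`z0` (`IsCoveringMap.existsUnique_continuousMap_lifts`); a continuous root function is holomorphic (it
coincides locally with a section); two lifts which agree at one point are equal, so the `natDegree P` lifts
are pairwise distinct everywhere.
`puiseux`: apply it to `a z = ψ (e z)` on the half plane `Im z > R`. The translate `η k (z + 1)` of a root
function is again a root function, so `η k (z + 1) = η (π k) z` for a permutation `π`, `η k (z + m) = η k z`
for `m = (natDegree P)!`. So `Y k τ := η k (m * log τ / (2 π i))` is holomorphic in a punctured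
neighbourhood of `0` (it does not depend on the branch of `log`) and its growth is bounded by that of the
coefficients of `P (ψ (τ ^ m))`: a root of a monic polynomial is bounded by `1 +` the sum of the absolute
values of the coefficients; `growth_of_meromorphicAt`, `meromorphicAt_of_growth`.
-/

set_option autoImplicit false

namespace MP_cb3775_ag

open Filter Topology

variable {n : ℕ} (B : Base n)

private theorem cover_ne {X : Type*} [TopologicalSpace X] {f g : X → ℂ} {w : X}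
    (hf : ContinuousAt f w) (hg : ContinuousAt g w) (h : f w ≠ g w) :
    ∀ᶠ z in 𝓝 w, f z ≠ g z := by
  filter_upwards [(hf.sub hg).eventually_ne (sub_ne_zero.2 h)] with z hz
  exact sub_ne_zero.1 hz

/-- a continuous root function coincides locally with a section -/
private theorem cover_eventually_section {Ω : Set ℂ} (hΩ : IsOpen Ω) {a : ℂ → (Fin n → ℂ)}
    (ha : ∀ z ∈ Ω, AnalyticAt ℂ a z) {f : ℂ → ℂ} (hf : ContinuousOn f Ω)
    (hf' : ∀ z ∈ Ω, (a z, f z) ∈ B.pts) {z₀ : ℂ} (hz : z₀ ∈ Ω) {σ : (Fin n → ℂ) → ℂ}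
    (hσ : B.IsSection (a z₀, f z₀) σ) : ∀ᶠ z in 𝓝 z₀, f z = σ (a z) := by
  have h1 : Tendsto (fun z => ((a z, f z) : Pt n)) (𝓝 z₀) (𝓝 (a z₀, f z₀)) :=
    ((ha z₀ hz).continuousAt.prodMk (hf.continuousAt (hΩ.mem_nhds hz)))
  filter_upwards [h1.eventually hσ.2.2, hΩ.mem_nhds hz] with z h2 h3
  exact h2.1 (hf' z h3)

/-- a continuous root function is holomorphic -/
private theorem cover_analytic {Ω : Set ℂ} (hΩ : IsOpen Ω) {a : ℂ → (Fin n → ℂ)}
    (ha : ∀ z ∈ Ω, AnalyticAt ℂ a z) {f : ℂ → ℂ} (hf : ContinuousOn f Ω)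
    (hf' : ∀ z ∈ Ω, (a z, f z) ∈ B.pts) {z₀ : ℂ} (hz : z₀ ∈ Ω) : AnalyticAt ℂ f z₀ := by
  obtain ⟨σ, hσ⟩ := B.section_exists _ (hf' z₀ hz)
  have h1 := cover_eventually_section B hΩ ha hf hf' hz hσ
  have h2 : AnalyticAt ℂ (fun z => σ (a z)) z₀ :=
    AnalyticAt.comp_of_eq (g := σ) (f := a) hσ.1 (ha z₀ hz) rfl
  exact h2.congr (by filter_upwards [h1] with z hz; exact hz.symm)

/-- a holomorphic root function is determined by its value at one point. -/
theorem root_unique (Ω : Set ℂ) (hΩ : IsOpen Ω) (hc : IsPreconnected Ω) (a : ℂ → (Fin n → ℂ))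
    (ha : ∀ z ∈ Ω, AnalyticAt ℂ a z) (f g : ℂ → ℂ) (hf : ContinuousOn f Ω)
    (hg : ContinuousOn g Ω) (hf' : ∀ z ∈ Ω, (a z, f z) ∈ B.pts) (hg' : ∀ z ∈ Ω, (a z, g z) ∈ B.pts)
    (z₀ : ℂ) (hz : z₀ ∈ Ω) (h : f z₀ = g z₀) : ∀ z ∈ Ω, f z = g z := by
  have hu : IsOpen {z | z ∈ Ω ∧ f z = g z} := by
    rw [isOpen_iff_mem_nhds]
    rintro w ⟨hw, hfg⟩
    obtain ⟨σ, hσ⟩ := B.section_exists _ (hf' w hw)
    have hσ' : B.IsSection (a w, g w) σ := by rw [← hfg]; exact hσ
    filter_upwards [cover_eventually_section B hΩ ha hf hf' hw hσ,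
      cover_eventually_section B hΩ ha hg hg' hw hσ', hΩ.mem_nhds hw] with z h1 h2 h3
    exact ⟨h3, by rw [h1, h2]⟩
  have hv : IsOpen {z | z ∈ Ω ∧ f z ≠ g z} := by
    rw [isOpen_iff_mem_nhds]
    rintro w ⟨hw, hfg⟩
    have h1 : ∀ᶠ z in 𝓝 w, f z ≠ g z :=
      cover_ne (hf.continuousAt (hΩ.mem_nhds hw)) (hg.continuousAt (hΩ.mem_nhds hw)) hfg
    filter_upwards [h1, hΩ.mem_nhds hw] with z h2 h3
    exact ⟨h3, h2⟩
  have hsub := IsPreconnected.subset_left_of_subset_union hu hv
    (by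
      rw [Set.disjoint_left]
      rintro z ⟨_, h1⟩ ⟨_, h2⟩
      exact h2 h1)
    (s := Ω) (by
      intro z hz
      by_cases h1 : f z = g z
      · exact Or.inl ⟨hz, h1⟩
      · exact Or.inr ⟨hz, h1⟩)
    ⟨z₀, hz, hz, h⟩ hc
  exact fun z hz => (hsub hz).2

/-- the roots above a point -/
private noncomputable def coverIdx (x : Fin n → ℂ) : Finset ℂ :=
  (B.P.map (MvPolynomial.eval x)).roots.toFinset

/-- local structure of `S` above a point with `δ ≠ 0` -/
private theorem cover_local (x₀ : Fin n → ℂ) (hx₀ : MvPolynomial.eval x₀ B.δ ≠ 0) :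
    ∃ (U : Set (Fin n → ℂ)) (σ : coverIdx B x₀ → (Fin n → ℂ) → ℂ), IsOpen U ∧ x₀ ∈ U ∧
      (∀ j, ContinuousOn (σ j) U) ∧ (∀ j, ∀ x ∈ U, (x, σ j x) ∈ B.pts) ∧
      (∀ x ∈ U, Function.Injective fun j => σ j x) ∧
      (∀ x ∈ U, ∀ y, (x, y) ∈ B.pts → ∃ j, y = σ j x) := by
  classical
  have hmem : ∀ j : coverIdx B x₀, (x₀, (j : ℂ)) ∈ B.pts := fun j =>
    (B.mem_roots x₀ hx₀ j).1 j.2
  choose σ hσ using fun j : coverIdx B x₀ => B.section_exists _ (hmem j)
  have h1 : ∀ᶠ x in 𝓝 x₀, ∀ j, AnalyticAt ℂ (σ j) x :=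
    eventually_all.2 fun j => (hσ j).1.eventually_analyticAt
  have h2 : ∀ᶠ x in 𝓝 x₀, ∀ j, (x, σ j x) ∈ B.pts :=
    eventually_all.2 fun j => (hσ j).eventually_mem
  have h3 : ∀ᶠ x in 𝓝 x₀, ∀ i j, i ≠ j → σ i x ≠ σ j x := by
    refine eventually_all.2 fun i => eventually_all.2 fun j => ?_
    by_cases hij : i = j
    · exact Eventually.of_forall fun x h => absurd hij h
    · have h4 : σ i x₀ ≠ σ j x₀ := by
        rw [(hσ i).2.1, (hσ j).2.1]
        exact fun h => hij (Subtype.ext h)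
      filter_upwards [cover_ne (hσ i).1.continuousAt (hσ j).1.continuousAt h4] with x hx _
      exact hx
  obtain ⟨U, hU, hUo, hxU⟩ := eventually_nhds_iff.1 ((h1.and h2).and h3)
  have hinj : ∀ x ∈ U, Function.Injective fun j => σ j x := by
    intro x hx i j hij
    by_contra hne
    exact (hU x hx).2 i j hne hij
  refine ⟨U, σ, hUo, hxU, fun j x hx => ((hU x hx).1.1 j).continuousAt.continuousWithinAt,
    fun j x hx => (hU x hx).1.2 j, hinj, ?_⟩
  intro x hx y hy
  have hδ : MvPolynomial.eval x B.δ ≠ 0 := hy.1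
  have hsub : Finset.univ.image (fun j => σ j x) ⊆ coverIdx B x := by
    intro w hw
    obtain ⟨j, _, rfl⟩ := Finset.mem_image.1 hw
    exact (B.mem_roots x hδ _).2 ((hU x hx).1.2 j)
  have hcard : (coverIdx B x).card ≤ (Finset.univ.image (fun j => σ j x)).card := by
    rw [Finset.card_image_of_injective _ (hinj x hx), Finset.card_univ, Fintype.card_coe]
    unfold coverIdx
    rw [B.card_roots x hδ, B.card_roots x₀ hx₀]
  have heq := Finset.eq_of_subset_of_card_le hsub hcard
  have hyx : y ∈ coverIdx B x := (B.mem_roots x hδ y).2 hy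
  rw [← heq] at hyx
  obtain ⟨j, _, hj⟩ := Finset.mem_image.1 hyx
  exact ⟨j, hj.symm⟩

private theorem cover_isCoveringMapOn :
    IsCoveringMapOn (fun s : B.pts => s.1.1) {x : Fin n → ℂ | MvPolynomial.eval x B.δ ≠ 0} := by
  classical
  intro x₀ hx₀
  obtain ⟨U, σ, hUo, hxU, hc, hp, hinj, hsurj⟩ := cover_local B x₀ hx₀
  apply IsEvenlyCovered.to_isEvenlyCovered_preimage (I := coverIdx B x₀)
  have hcont : Continuous (fun s : B.pts => s.1.1) := continuous_fst.comp continuous_subtype_val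
  choose idx hidx using fun s : ((fun s : B.pts => s.1.1) ⁻¹' U) =>
    hsurj s.1.1.1 s.2 s.1.1.2 s.1.2
  have hloc : ∀ s, ∀ᶠ t in 𝓝 s, idx t = idx s := by
    intro s
    have hxs : s.1.1.1 ∈ U := s.2
    have h1 : ∀ᶠ t : ((fun s : B.pts => s.1.1) ⁻¹' U) in 𝓝 s, ∀ i, i ≠ idx s →
        σ i t.1.1.1 ≠ t.1.1.2 := by
      refine eventually_all.2 fun i => ?_
      by_cases hi : i = idx s
      · exact Eventually.of_forall fun t h => absurd hi h
      · have h4 : σ i s.1.1.1 ≠ s.1.1.2 := by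
          rw [hidx s]
          exact fun h => hi (hinj _ hxs h)
        have h5 : ContinuousAt (fun t : ((fun s : B.pts => s.1.1) ⁻¹' U) => σ i t.1.1.1) s := by
          have h6 : ContinuousAt (σ i) s.1.1.1 := (hc i).continuousAt (hUo.mem_nhds hxs)
          have h7 : Continuous (fun t : ((fun s : B.pts => s.1.1) ⁻¹' U) => t.1.1.1) :=
            hcont.comp continuous_subtype_val
          exact ContinuousAt.comp (g := σ i) (f := fun t : ((fun s : B.pts => s.1.1) ⁻¹' U) =>
            t.1.1.1) h6 h7.continuousAt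
        have h8 : Continuous (fun t : ((fun s : B.pts => s.1.1) ⁻¹' U) => t.1.1.2) :=
          continuous_snd.comp (continuous_subtype_val.comp continuous_subtype_val)
        filter_upwards [cover_ne h5 (h8.continuousAt (x := s)) h4] with t ht _
        exact ht
    filter_upwards [h1] with t ht
    by_contra hne
    exact ht (idx t) hne (hidx t).symm
  refine ⟨inferInstance, U, hxU, hUo, hUo.preimage hcont, ?_⟩
  refine ⟨{ toFun := fun s => (⟨s.1.1.1, s.2⟩, idx s)
            invFun := fun c => ⟨⟨(c.1.1, σ c.2 c.1.1), hp c.2 c.1.1 c.1.2⟩, c.1.2⟩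
            left_inv := ?_
            right_inv := ?_
            continuous_toFun := ?_
            continuous_invFun := ?_ }, fun s => rfl⟩
  · intro s
    apply Subtype.ext
    apply Subtype.ext
    exact Prod.ext rfl (hidx s).symm
  · rintro ⟨x, j⟩
    refine Prod.ext rfl ?_
    have h1 := hidx ⟨⟨(x.1, σ j x.1), hp j x.1 x.2⟩, x.2⟩
    exact (hinj x.1 x.2 h1).symm
  · refine Continuous.prodMk ?_ ?_
    · exact Continuous.subtype_mk (hcont.comp continuous_subtype_val) _
    · rw [continuous_iff_continuousAt]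
      intro s
      exact (continuousAt_const (y := idx s)).congr
        (by filter_upwards [hloc s] with t ht; exact ht.symm)
  · refine Continuous.subtype_mk (Continuous.subtype_mk ?_ _) _
    refine Continuous.prodMk (continuous_subtype_val.comp continuous_fst) ?_
    rw [continuous_prod_of_discrete_right]
    intro j
    exact (hc j).domRestrict

theorem holomorphic_roots (Ω : Set ℂ) (hΩ : IsOpen Ω) (hc : Convex ℝ Ω) (a : ℂ → (Fin n → ℂ))
    (ha : ∀ z ∈ Ω, AnalyticAt ℂ a z) (hδ : ∀ z ∈ Ω, MvPolynomial.eval (a z) B.δ ≠ 0) :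
    ∃ η : Fin B.P.natDegree → ℂ → ℂ, (∀ k, ∀ z ∈ Ω, AnalyticAt ℂ (η k) z ∧ (a z, η k z) ∈ B.pts) ∧
      ∀ z ∈ Ω, Function.Injective fun k => η k z := by
  classical
  rcases Set.eq_empty_or_nonempty Ω with hem | hne
  · subst hem
    exact ⟨fun _ _ => 0, fun k z hz => absurd hz (Set.notMem_empty z),
      fun z hz => absurd hz (Set.notMem_empty z)⟩
  obtain ⟨z₀, hz₀⟩ := hne
  have hcs : ContractibleSpace Ω := hc.contractibleSpace ⟨z₀, hz₀⟩
  have hsc : SimplyConnectedSpace Ω := SimplyConnectedSpace.ofContractible Ω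
  have hlp : LocallyPathConnectedSpace Ω := hΩ.locallyPathConnectedSpace
  have hac : ContinuousOn a Ω := fun z hz => (ha z hz).continuousAt.continuousWithinAt
  let f : C(Ω, Fin n → ℂ) := ⟨fun z => a z.1, hac.domRestrict⟩
  let J := coverIdx B (a z₀)
  have hJ : J.card = B.P.natDegree := B.card_roots (a z₀) (hδ z₀ hz₀)
  let eJ : Fin B.P.natDegree ≃ J := (J.equivFinOfCardEq hJ).symm
  have hlift : ∀ j : J, ∃ F : C(Ω, B.pts), (F ⟨z₀, hz₀⟩).1 = (a z₀, (j : ℂ)) ∧
      ∀ z : Ω, (F z).1.1 = a z.1 := by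
    intro j
    have hj : (a z₀, (j : ℂ)) ∈ B.pts := (B.mem_roots (a z₀) (hδ z₀ hz₀) j).1 j.2
    obtain ⟨F, ⟨h1, h2⟩, _⟩ := (cover_isCoveringMapOn B).existsUnique_continuousMap_lifts f
      (a₀ := ⟨z₀, hz₀⟩) (e₀ := ⟨(a z₀, (j : ℂ)), hj⟩) rfl (fun z => hδ z.1 z.2)
    exact ⟨F, by rw [h1], fun z => congrFun h2 z⟩
  choose F hF0 hF using hlift
  let η : Fin B.P.natDegree → ℂ → ℂ := fun k z => if hz : z ∈ Ω then (F (eJ k) ⟨z, hz⟩).1.2 else 0
  have hη : ∀ k z (hz : z ∈ Ω), η k z = (F (eJ k) ⟨z, hz⟩).1.2 := fun k z hz => dif_pos hz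
  have hmem : ∀ k, ∀ z ∈ Ω, (a z, η k z) ∈ B.pts := by
    intro k z hz
    have h1 : (a z, η k z) = (F (eJ k) ⟨z, hz⟩).1 := by
      rw [hη k z hz, ← hF (eJ k) ⟨z, hz⟩]
    rw [h1]
    exact (F (eJ k) ⟨z, hz⟩).2
  have hcont : ∀ k, ContinuousOn (η k) Ω := by
    intro k
    rw [continuousOn_iff_continuous_domRestrict]
    have h1 : Ω.domRestrict (η k) = fun z : Ω => (F (eJ k) z).1.2 := by
      funext z
      exact hη k z.1 z.2
    rw [h1]
    exact continuous_snd.comp (continuous_subtype_val.comp (F (eJ k)).continuous)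
  refine ⟨η, fun k z hz => ⟨cover_analytic B hΩ ha (hcont k) (hmem k) hz, hmem k z hz⟩, ?_⟩
  intro z hz k k' hkk
  have h1 := root_unique B Ω hΩ hc.isPreconnected a ha (η k) (η k') (hcont k) (hcont k') (hmem k)
    (hmem k') z hz hkk z₀ hz₀
  rw [hη k z₀ hz₀, hη k' z₀ hz₀, hF0, hF0] at h1
  exact eJ.injective (Subtype.ext h1)

end MP_cb3775_ag
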