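import Pool.Agent.Lib.MP_cb3775_ag.C.Tr0

/-!
# Euler's formula for the traces

Proof text: see `C/Tr0.lean`.
-/

set_option autoImplicit false

namespace MP_cb3775_ag

open Filter Topology

variable {n : ℕ} (B : Base n)

/-- the coefficients of `(P (x, Y) - P (x, y)) / (Y - y)`. -/
private noncomputable def eulB (P : Poly n) (j : ℕ) : Poly n :=
  ∑ i ∈ Finset.range (P.natDegree + 1),
    if j < i then Polynomial.C (P.coeff i) * Polynomial.X ^ (i - 1 - j) else 0

private theorem eul_evalAt (P : Poly n) (s : Pt n) (j : ℕ) :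
    evalAt s (eulB P j) = ∑ i ∈ Finset.range (P.natDegree + 1),
      if j < i then MvPolynomial.eval s.1 (P.coeff i) * s.2 ^ (i - 1 - j) else 0 := by
  unfold eulB
  rw [map_sum]
  refine Finset.sum_congr rfl fun i _ => ?_
  split_ifs with h
  · simp [evalAt]
  · simp

private theorem eul_sum (P : Poly n) (s : Pt n) (z : ℂ) :
    ∑ j ∈ Finset.range P.natDegree, evalAt s (eulB P j) * z ^ j =
      ∑ i ∈ Finset.range (P.natDegree + 1), MvPolynomial.eval s.1 (P.coeff i) *
        ∑ j ∈ Finset.range i, z ^ j * s.2 ^ (i - 1 - j) := by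
  have h1 : ∀ j ∈ Finset.range P.natDegree, evalAt s (eulB P j) * z ^ j =
      ∑ i ∈ Finset.range (P.natDegree + 1),
        if j < i then MvPolynomial.eval s.1 (P.coeff i) * (z ^ j * s.2 ^ (i - 1 - j)) else 0 := by
    intro j _
    rw [eul_evalAt, Finset.sum_mul]
    refine Finset.sum_congr rfl fun i _ => ?_
    split_ifs
    · ring
    · ring
  rw [Finset.sum_congr rfl h1, Finset.sum_comm]
  refine Finset.sum_congr rfl fun i hi => ?_
  rw [Finset.mul_sum, ← Finset.sum_filter]
  refine Finset.sum_congr ?_ fun _ _ => rfl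
  ext j
  simp only [Finset.mem_filter, Finset.mem_range] at hi ⊢
  omega

private theorem eul_eval (P : Poly n) (s : Pt n) (z : ℂ) :
    (P.map (MvPolynomial.eval s.1)).eval z =
      ∑ i ∈ Finset.range (P.natDegree + 1), MvPolynomial.eval s.1 (P.coeff i) * z ^ i := by
  rw [Polynomial.eval_map, Polynomial.eval₂_eq_sum_range]

/-- Euler's formula. -/
theorem trace_euler : ∃ b : ℕ → Poly n, ∀ (q : Pt n → ℂ), ∀ s ∈ B.pts,
    ∑ j ∈ Finset.range B.P.natDegree, evalAt s (b j) * trace B q j s.1 =
      q s * evalAt s (Polynomial.derivative B.P) := by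
  refine ⟨eulB B.P, fun q s hs => ?_⟩
  have hne : B.P.map (MvPolynomial.eval s.1) ≠ 0 := (B.monic.map _).ne_zero
  have hroot : (B.P.map (MvPolynomial.eval s.1)).eval s.2 = 0 := by
    have := hs.2
    rw [Polynomial.eval_map]
    exact this
  have hmem : s.2 ∈ (B.P.map (MvPolynomial.eval s.1)).roots.toFinset := by
    rw [Multiset.mem_toFinset, Polynomial.mem_roots hne]
    exact hroot
  have h1 : ∑ j ∈ Finset.range B.P.natDegree, evalAt s (eulB B.P j) * trace B q j s.1 =
      ∑ z ∈ (B.P.map (MvPolynomial.eval s.1)).roots.toFinset,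
        q (s.1, z) * ∑ j ∈ Finset.range B.P.natDegree, evalAt s (eulB B.P j) * z ^ j := by
    unfold trace
    simp only [Finset.mul_sum]
    rw [Finset.sum_comm]
    refine Finset.sum_congr rfl fun z _ => Finset.sum_congr rfl fun j _ => ?_
    ring
  rw [h1, Finset.sum_eq_single_of_mem s.2 hmem]
  · rw [eul_sum]
    have h2 : evalAt s (Polynomial.derivative B.P) = ∑ i ∈ Finset.range (B.P.natDegree + 1),
        MvPolynomial.eval s.1 (B.P.coeff i) * (i * s.2 ^ (i - 1)) := by
      have h3 : evalAt s (Polynomial.derivative B.P) =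
          (Polynomial.derivative (B.P.map (MvPolynomial.eval s.1))).eval s.2 := by
        rw [Polynomial.derivative_map, Polynomial.eval_map]
        rfl
      rw [h3, Polynomial.derivative_eval, Polynomial.sum_over_range' _ _ (B.P.natDegree + 1)]
      · refine Finset.sum_congr rfl fun i _ => ?_
        rw [Polynomial.coeff_map]
        ring
      · exact Nat.lt_succ_of_le Polynomial.natDegree_map_le
      · intro k
        simp
    rw [h2]
    congr 1
    refine Finset.sum_congr rfl fun i _ => ?_
    rw [geom_sum₂_self]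
  · intro z hz hzs
    rw [Multiset.mem_toFinset, Polynomial.mem_roots hne] at hz
    have hz' : (B.P.map (MvPolynomial.eval s.1)).eval z = 0 := hz
    rw [eul_sum]
    have h4 : (∑ i ∈ Finset.range (B.P.natDegree + 1), MvPolynomial.eval s.1 (B.P.coeff i) *
        ∑ j ∈ Finset.range i, z ^ j * s.2 ^ (i - 1 - j)) * (z - s.2) = 0 := by
      rw [Finset.sum_mul]
      have h5 : ∀ i ∈ Finset.range (B.P.natDegree + 1),
          (MvPolynomial.eval s.1 (B.P.coeff i) *
            ∑ j ∈ Finset.range i, z ^ j * s.2 ^ (i - 1 - j)) * (z - s.2) =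
          MvPolynomial.eval s.1 (B.P.coeff i) * z ^ i -
            MvPolynomial.eval s.1 (B.P.coeff i) * s.2 ^ i := by
        intro i _
        rw [mul_assoc, geom_sum₂_mul]
        ring
      rw [Finset.sum_congr rfl h5, Finset.sum_sub_distrib, ← eul_eval, ← eul_eval, hz', hroot,
        sub_zero]
    rcases mul_eq_zero.mp h4 with h | h
    · rw [h, mul_zero]
    · exact absurd (sub_eq_zero.mp h) hzs

end MP_cb3775_ag
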