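import Pool.Agent.Lib.MP_cb3775_ag.C.Pun0

/-!
# One variable: growth and meromorphy

Hints: removable singularities (`Complex.analyticAt_of_differentiable_on_punctured_nhds_of_continuousAt`,
`Complex.differentiableOn_update_limUnder_of_bddAbove`), Cauchy estimates for `entire_poly`
(`Complex.norm_iteratedDeriv_le_of_forall_mem_sphere_norm_le` or power series at `0`).
-/

set_option autoImplicit false

namespace MP_cb3775_ag

open Filter Topology

/-- Growth of a function which is meromorphic at infinity. -/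
private theorem punct_growth (f : ℂ → ℂ) (hinf : MeromorphicAt (fun t => f t⁻¹) 0) :
    ∃ (C : ℝ) (k : ℕ) (R : ℝ), 0 ≤ C ∧ 0 < R ∧ ∀ z : ℂ, R < ‖z‖ → ‖f z‖ ≤ C * ‖z‖ ^ k := by
  obtain ⟨C, k, hC, h⟩ := growth_of_meromorphicAt _ hinf
  rw [eventually_nhdsWithin_iff, Metric.eventually_nhds_iff] at h
  obtain ⟨ε, hε, h⟩ := h
  refine ⟨C, k, ε⁻¹, hC, inv_pos.2 hε, fun z hz => ?_⟩
  have hz0 : 0 < ‖z‖ := (inv_pos.2 hε).trans hz
  have hz1 : z ≠ 0 := norm_pos_iff.1 hz0
  have h1 := h (y := z⁻¹) (by
    rw [dist_zero_right, norm_inv]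
    exact inv_lt_of_inv_lt₀ hε hz) (by simpa using hz1)
  simpa using h1

/-- An entire function which is meromorphic at infinity is a polynomial. -/
theorem entire_poly (f : ℂ → ℂ) (hf : ∀ z, AnalyticAt ℂ f z)
    (hinf : MeromorphicAt (fun t => f t⁻¹) 0) : ∃ A : Polynomial ℂ, ∀ z, f z = A.eval z := by
  obtain ⟨C, k, R, hC, hR, hg⟩ := punct_growth f hinf
  have hd : Differentiable ℂ f := fun z => (hf z).differentiableAt
  have hz : ∀ n, k < n → iteratedDeriv n f 0 = 0 := by
    intro n hn
    rw [← norm_le_zero_iff]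
    refine le_of_forall_pos_le_add fun ε hε => ?_
    rw [zero_add]
    let r : ℝ := max (R + 1) (max 1 ((n.factorial : ℝ) * C / ε))
    have hr1 : R < r := (lt_add_one R).trans_le (le_max_left _ _)
    have hr2 : 1 ≤ r := (le_max_left _ _).trans (le_max_right _ _)
    have hr3 : (n.factorial : ℝ) * C / ε ≤ r := (le_max_right _ _).trans (le_max_right _ _)
    have hr0 : 0 < r := hR.trans hr1
    have h1 := Complex.norm_iteratedDeriv_le_of_forall_mem_sphere_norm_le (n := n) (c := 0)
      (R := r) (C := C * r ^ k) (f := f) hr0 hd.diffContOnCl (fun z hz => by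
        have hz' : ‖z‖ = r := by simpa using hz
        have := hg z (by rw [hz']; exact hr1)
        rwa [hz'] at this)
    refine h1.trans ?_
    obtain ⟨m, rfl⟩ := Nat.exists_eq_add_of_lt hn
    have h2 : ((k + m + 1).factorial : ℝ) * (C * r ^ k) / r ^ (k + m + 1) =
        (((k + m + 1).factorial : ℝ) * C / r) * (1 / r ^ m) := by
      field_simp
      ring
    rw [h2]
    have h3 : ((k + m + 1).factorial : ℝ) * C / r ≤ ε := by
      rw [div_le_iff₀ hr0]
      rw [div_le_iff₀ hε] at hr3
      linarith [mul_comm ε r]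
    have h4 : 1 / r ^ m ≤ 1 := by
      rw [div_le_one (pow_pos hr0 m)]
      exact one_le_pow₀ hr2
    have h5 : 0 ≤ 1 / r ^ m := by positivity
    calc (((k + m + 1).factorial : ℝ) * C / r) * (1 / r ^ m) ≤ ε * 1 :=
          mul_le_mul h3 h4 h5 hε.le
      _ = ε := mul_one ε
  refine ⟨∑ n ∈ Finset.range (k + 1),
    Polynomial.monomial n ((n.factorial : ℂ)⁻¹ * iteratedDeriv n f 0), fun z => ?_⟩
  have h1 := Complex.taylorSeries_eq_of_entire hd 0 z
  rw [← h1, tsum_eq_sum (s := Finset.range (k + 1))]
  · rw [Polynomial.eval_finsetSum]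
    refine Finset.sum_congr rfl fun n _ => ?_
    rw [Polynomial.eval_monomial, sub_zero, smul_eq_mul, smul_eq_mul]
    ring
  · intro n hn
    rw [Finset.mem_range, not_lt] at hn
    rw [hz n (by omega)]
    simp

private theorem punct_eval_inv (p : Polynomial ℂ) : MeromorphicAt (fun t : ℂ => p.eval t⁻¹) 0 := by
  induction p using Polynomial.induction_on' with
  | add p q hp hq =>
    simp only [Polynomial.eval_add]
    exact hp.fun_add hq
  | monomial n a =>
    simp only [Polynomial.eval_monomial]
    exact (MeromorphicAt.const a 0).fun_mul (((MeromorphicAt.id 0).fun_inv).fun_pow n)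

/-- A function holomorphic outside the zeros of the polynomial `d`, meromorphic at these zeros and at
infinity, is `A / d ^ k`. -/
theorem rational_line (d : Polynomial ℂ) (hd : d ≠ 0) (h : ℂ → ℂ)
    (hol : ∀ z, d.eval z ≠ 0 → AnalyticAt ℂ h z) (mero : ∀ z, d.eval z = 0 → MeromorphicAt h z)
    (hinf : MeromorphicAt (fun t => h t⁻¹) 0) :
    ∃ (k : ℕ) (A : Polynomial ℂ), ∀ z, d.eval z ≠ 0 → (d.eval z) ^ k * h z = A.eval z := by
  classical
  have hev : ∀ (p : Polynomial ℂ) (z : ℂ), AnalyticAt ℂ (fun w => p.eval w) z := by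
    intro p z
    have hdp : Differentiable ℂ (fun w => p.eval w) := p.differentiable
    exact hdp.analyticAt z
  choose! m hm using mero
  let k : ℕ := d.roots.toFinset.sup m
  have hF : ∀ z, AnalyticAt ℂ (fun w => (d.eval w) ^ k * h w) z := by
    intro z
    by_cases hz : d.eval z = 0
    · obtain ⟨q, hq⟩ := Polynomial.dvd_iff_isRoot.2 hz
      have hmk : m z ≤ k := Finset.le_sup (f := m) (by
        rw [Multiset.mem_toFinset, Polynomial.mem_roots hd]
        exact hz)
      have hFe : (fun w => (d.eval w) ^ k * h w) =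
          fun w => ((q.eval w) ^ k * (w - z) ^ (k - m z)) * ((w - z) ^ m z • h w) := by
        funext w
        have h1 : d.eval w = (w - z) * q.eval w := by
          conv_lhs => rw [hq]
          rw [Polynomial.eval_mul, Polynomial.eval_sub, Polynomial.eval_X, Polynomial.eval_C]
        have h2 : (w - z) ^ k = (w - z) ^ (k - m z) * (w - z) ^ m z := by
          rw [← pow_add, Nat.sub_add_cancel hmk]
        rw [h1, mul_pow, h2, smul_eq_mul]
        ring
      rw [hFe]
      exact (((hev q z).fun_pow k).fun_mul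
        ((analyticAt_id.fun_sub analyticAt_const).fun_pow _)).fun_mul (hm z hz)
    · exact ((hev d z).fun_pow k).fun_mul (hol z hz)
  obtain ⟨A, hA⟩ := entire_poly _ hF (((punct_eval_inv d).fun_pow k).fun_mul hinf)
  exact ⟨k, A, fun z _ => hA z⟩

end MP_cb3775_ag
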