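import Pool.Agent.Lib.MP_cb3775_ag.C.Cover
import Pool.Agent.Lib.MP_cb3775_ag.C.Punct

/-!
# The branches of `S` over an arc in `{δ ≠ 0}` (Puiseux)

Proof text: see `C/Cover.lean`.
-/

set_option autoImplicit false

namespace MP_cb3775_ag

open Filter Topology

variable {n : ℕ} (B : Base n)

private theorem puis_punct {p : ℂ → Prop} (h : ∀ᶠ t in 𝓝[≠] (0 : ℂ), p t) :
    ∃ r : ℝ, 0 < r ∧ ∀ t : ℂ, 0 < ‖t‖ → ‖t‖ < r → p t := by
  rw [eventually_nhdsWithin_iff, Metric.eventually_nhds_iff] at h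
  obtain ⟨r, hr, h⟩ := h
  refine ⟨r, hr, fun t ht htr => h (by simpa [dist_zero_right] using htr) ?_⟩
  simpa using norm_pos_iff.1 ht

private theorem puis_ev {p : ℂ → Prop} (r : ℝ) (hr : 0 < r)
    (h : ∀ t : ℂ, 0 < ‖t‖ → ‖t‖ < r → p t) : ∀ᶠ t in 𝓝[≠] (0 : ℂ), p t := by
  rw [eventually_nhdsWithin_iff, Metric.eventually_nhds_iff]
  refine ⟨r, hr, fun {t} ht htne => h t ?_ ?_⟩
  · exact norm_pos_iff.2 (by simpa using htne)
  · simpa [dist_zero_right] using ht

private theorem puis_e_ne (z : ℂ) : e z ≠ 0 := Complex.exp_ne_zero _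

private theorem puis_e_norm (z : ℂ) : ‖e z‖ = Real.exp (-(2 * Real.pi * z.im)) := by
  unfold e
  rw [Complex.norm_exp]
  congr 1
  simp [Complex.mul_re, Complex.mul_im]

private theorem puis_e_add_one (z : ℂ) : e (z + 1) = e z := by
  unfold e
  rw [mul_add, Complex.exp_add, mul_one, Complex.exp_two_pi_mul_I, mul_one]

private theorem puis_e_an (z : ℂ) : AnalyticAt ℂ e z := by
  unfold e
  fun_prop

/-- the polynomial functions of a meromorphic arc are meromorphic -/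
private theorem puis_mero (ψ : ℂ → (Fin n → ℂ)) (hψ : MeromorphicAt ψ 0)
    (c : MvPolynomial (Fin n) ℂ) : MeromorphicAt (fun t => MvPolynomial.eval (ψ t) c) 0 := by
  have hcomp : ∀ j, MeromorphicAt (fun t => ψ t j) 0 := by
    intro j
    obtain ⟨k, hk⟩ := hψ
    refine ⟨k, ?_⟩
    rw [analyticAt_pi_iff] at hk
    simpa using hk j
  induction c using MvPolynomial.induction_on with
  | C a => simp
  | add p q hp hq =>
    have h := hp.add hq
    refine h.congr (Filter.Eventually.of_forall fun t => ?_)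
    simp
  | mul_X p j hp =>
    have h := hp.mul (hcomp j)
    refine h.congr (Filter.Eventually.of_forall fun t => ?_)
    simp

/-- growth of a root of a monic polynomial -/
private theorem puis_root_bound (p : Polynomial ℂ) (hp : p.Monic) (y : ℂ) (hy : p.eval y = 0) :
    ‖y‖ ≤ 1 + ∑ i ∈ Finset.range p.natDegree, ‖p.coeff i‖ := by
  have h := Polynomial.IsRoot.norm_lt_cauchyBound hp.ne_zero (show p.IsRoot y from hy)
  have h2 : Polynomial.cauchyBound p ≤ (∑ i ∈ Finset.range p.natDegree, ‖p.coeff i‖₊) + 1 := by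
    unfold Polynomial.cauchyBound
    rw [hp.leadingCoeff, nnnorm_one, div_one]
    gcongr
    refine Finset.sup_le fun i hi => ?_
    exact Finset.single_le_sum (f := fun i => ‖p.coeff i‖₊) (fun _ _ => zero_le) hi
  have h3 : ‖y‖₊ ≤ (∑ i ∈ Finset.range p.natDegree, ‖p.coeff i‖₊) + 1 := (h.le.trans h2)
  have h4 : (‖y‖₊ : ℝ) ≤ ((∑ i ∈ Finset.range p.natDegree, ‖p.coeff i‖₊) + 1 : NNReal) := by
    exact_mod_cast h3
  push_cast at h4
  linarith

/-- growth of the roots along an arc -/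
private theorem puis_growth (ψ : ℂ → (Fin n → ℂ)) (hψ : MeromorphicAt ψ 0) :
    ∃ (C : ℝ) (K : ℕ) (r : ℝ), 0 < r ∧ ∀ t : ℂ, 0 < ‖t‖ → ‖t‖ < r → ∀ y : ℂ,
      (ψ t, y) ∈ B.pts → ‖y‖ ≤ C * (‖t‖⁻¹) ^ K := by
  have hg := fun i => growth_of_meromorphicAt _ (puis_mero ψ hψ (B.P.coeff i))
  choose C k hC hk using hg
  set d := B.P.natDegree
  have hall : ∀ᶠ t in 𝓝[≠] (0 : ℂ), ∀ i ∈ Finset.range d,
      ‖MvPolynomial.eval (ψ t) (B.P.coeff i)‖ ≤ C i * (‖t‖⁻¹) ^ (k i) := by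
    rw [Filter.eventually_all_finset]
    exact fun i _ => hk i
  obtain ⟨r, hr, h⟩ := puis_punct hall
  refine ⟨1 + ∑ i ∈ Finset.range d, C i, ∑ i ∈ Finset.range d, k i, min r 1, by positivity, ?_⟩
  intro t ht htr y hy
  have htr1 : ‖t‖ < r := lt_of_lt_of_le htr (min_le_left _ _)
  have htr2 : ‖t‖ < 1 := lt_of_lt_of_le htr (min_le_right _ _)
  have h1 : 1 ≤ ‖t‖⁻¹ := (one_le_inv₀ ht).2 htr2.le
  have hroot := hy.2
  rw [evalAt_eq] at hroot
  have hb := puis_root_bound _ (B.monic.map (MvPolynomial.eval (ψ t))) y hroot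
  rw [B.monic.natDegree_map] at hb
  refine hb.trans ?_
  rw [add_mul, one_mul, Finset.sum_mul]
  refine add_le_add (one_le_pow₀ h1) (Finset.sum_le_sum fun i hi => ?_)
  rw [Polynomial.coeff_map]
  refine (h t ht htr1 i hi).trans ?_
  refine mul_le_mul_of_nonneg_left ?_ (hC i)
  exact pow_le_pow_right₀ h1 (Finset.single_le_sum (f := k) (fun _ _ => Nat.zero_le _) hi)

theorem puiseux (ψ : ℂ → (Fin n → ℂ)) (hψ : MeromorphicAt ψ 0)
    (hδ : ∀ᶠ t in 𝓝[≠] (0 : ℂ), MvPolynomial.eval (ψ t) B.δ ≠ 0) :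
    ∃ (m : ℕ) (Y : Fin B.P.natDegree → ℂ → ℂ), 0 < m ∧ (∀ k, MeromorphicAt (Y k) 0) ∧
      ∀ᶠ τ in 𝓝[≠] (0 : ℂ), (∀ k, (ψ (τ ^ m), Y k τ) ∈ B.pts) ∧
        Function.Injective fun k => Y k τ := by
  obtain ⟨r, hr, hgood⟩ := puis_punct (hψ.eventually_analyticAt.and hδ)
  set R : ℝ := -(Real.log r / (2 * Real.pi)) with hR
  have hΩim : ∀ z : ℂ, R < z.im ↔ ‖e z‖ < r := by
    intro z
    have hpi : 0 < 2 * Real.pi := by positivity
    rw [puis_e_norm, ← Real.lt_log_iff_exp_lt hr, hR, neg_lt, lt_div_iff₀ hpi]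
    constructor <;> intro h <;> linarith
  set Ω : Set ℂ := {z | R < z.im} with hΩ
  have hΩo : IsOpen Ω := isOpen_lt continuous_const Complex.continuous_im
  have hΩc : Convex ℝ Ω := convex_halfSpace_im_gt R
  have hpos : ∀ z : ℂ, 0 < ‖e z‖ := fun z => norm_pos_iff.2 (puis_e_ne z)
  have han : ∀ z ∈ Ω, AnalyticAt ℂ (fun z => ψ (e z)) z := fun z hz =>
    (hgood (e z) (hpos z) ((hΩim z).1 hz)).1.comp (puis_e_an z)
  obtain ⟨η, hη, hinj⟩ := holomorphic_roots B Ω hΩo hΩc (fun z => ψ (e z)) han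
    fun z hz => (hgood (e z) (hpos z) ((hΩim z).1 hz)).2
  have hΩ1 : ∀ z ∈ Ω, z + 1 ∈ Ω := by
    intro z hz
    simpa [hΩ] using hz
  -- the point `i (R + 1)`
  set z₀ : ℂ := (R + 1 : ℝ) * Complex.I with hz₀
  have hz₀Ω : z₀ ∈ Ω := by
    simp [hΩ, hz₀]
  -- every root over `z₀` is one of the `η k z₀`
  have hsurj : ∀ y, (ψ (e z₀), y) ∈ B.pts → ∃ j, η j z₀ = y := by
    intro y hy
    have hδ₀ : MvPolynomial.eval (ψ (e z₀)) B.δ ≠ 0 :=
      (hgood (e z₀) (hpos z₀) ((hΩim z₀).1 hz₀Ω)).2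
    have hcard := B.card_roots (ψ (e z₀)) hδ₀
    set S := (B.P.map (MvPolynomial.eval (ψ (e z₀)))).roots.toFinset with hS
    have himg : Finset.univ.image (fun k => η k z₀) ⊆ S := by
      intro w hw
      obtain ⟨k, -, rfl⟩ := Finset.mem_image.1 hw
      exact (B.mem_roots (ψ (e z₀)) hδ₀ _).2 (hη k z₀ hz₀Ω).2
    have hEq : Finset.univ.image (fun k => η k z₀) = S := by
      refine Finset.eq_of_subset_of_card_le himg ?_
      rw [hcard, Finset.card_image_of_injective _ (hinj z₀ hz₀Ω), Finset.card_univ, Fintype.card_fin]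
    have : y ∈ S := (B.mem_roots (ψ (e z₀)) hδ₀ _).2 hy
    rw [← hEq] at this
    obtain ⟨j, -, hj⟩ := Finset.mem_image.1 this
    exact ⟨j, hj⟩
  have hmem1 : ∀ k, ∀ z ∈ Ω, (ψ (e z), η k (z + 1)) ∈ B.pts := by
    intro k z hz
    have := (hη k (z + 1) (hΩ1 z hz)).2
    simpa only [puis_e_add_one] using this
  choose π hπ using fun k => hsurj _ (hmem1 k z₀ hz₀Ω)
  have hstep : ∀ k, ∀ z ∈ Ω, η k (z + 1) = η (π k) z := by
    intro k
    refine root_unique B Ω hΩo hΩc.isPreconnected (fun z => ψ (e z)) han (fun z => η k (z + 1))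
      (η (π k)) ?_ ?_ (hmem1 k) (fun z hz => (hη (π k) z hz).2) z₀ hz₀Ω (hπ k).symm
    · intro z hz
      have h1 : AnalyticAt ℂ (fun z => η k (z + 1)) z :=
        AnalyticAt.fun_comp (f := fun z : ℂ => z + 1) (hη k (z + 1) (hΩ1 z hz)).1 (by fun_prop)
      exact h1.continuousAt.continuousWithinAt
    · intro z hz
      exact (hη (π k) z hz).1.continuousAt.continuousWithinAt
  have hπinj : Function.Injective π := by
    intro k l hkl
    have h1 := hinj (z₀ + 1) (hΩ1 z₀ hz₀Ω)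
    apply h1
    simp only
    rw [hstep k z₀ hz₀Ω, hstep l z₀ hz₀Ω, hkl]
  set P : Equiv.Perm (Fin B.P.natDegree) := Equiv.ofBijective π (Finite.injective_iff_bijective.1 hπinj)
  have hiter : ∀ j : ℕ, ∀ k, ∀ z ∈ Ω, η k (z + j) = η ((P ^ j) k) z := by
    intro j
    induction j with
    | zero => intro k z hz; simp
    | succ j ih =>
      intro k z hz
      have h1 : z + ((j + 1 : ℕ) : ℂ) = (z + 1) + j := by push_cast; ring
      rw [h1, ih k (z + 1) (hΩ1 z hz), hstep _ z hz, pow_succ', Equiv.Perm.mul_apply]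
      rfl
  set m := orderOf P with hm
  have hm0 : 0 < m := orderOf_pos P
  have hper : ∀ j : ℕ, ∀ k, ∀ z ∈ Ω, η k (z + (m * j : ℕ)) = η k z := by
    intro j k z hz
    rw [hiter (m * j) k z hz, pow_mul, hm, pow_orderOf_eq_one, one_pow]
    rfl
  have hm0' : (m : ℂ) ≠ 0 := by exact_mod_cast hm0.ne'
  have hpi : (2 * Real.pi * Complex.I : ℂ) ≠ 0 := Complex.two_pi_I_ne_zero
  have hper' : ∀ k, ∀ z ∈ Ω, ∀ z' ∈ Ω, e (z / m) = e (z' / m) → η k z = η k z' := by
    intro k z hz z' hz' hzz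
    unfold e at hzz
    rw [Complex.exp_eq_exp_iff_exists_int] at hzz
    obtain ⟨j, hj⟩ := hzz
    have hj' : z = z' + m * j := by
      field_simp at hj
      have : z * (2 * Real.pi * Complex.I) = (z' + m * j) * (2 * Real.pi * Complex.I) := by
        linear_combination (2 * Real.pi * Complex.I) * hj
      exact mul_right_cancel₀ hpi this
    rcases le_total 0 j with h0 | h0
    · lift j to ℕ using h0
      rw [hj']
      have := hper j k z' hz'
      push_cast at this ⊢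
      exact this
    · obtain ⟨i, hi⟩ := Int.exists_eq_neg_ofNat h0
      have hz'' : z' = z + (m * i : ℕ) := by
        rw [hj', hi]; push_cast; ring
      rw [hz'']
      exact (hper i k z hz).symm
  -- the coordinate
  set L : ℂ → ℂ := fun τ => m * Complex.log τ / (2 * Real.pi * Complex.I) with hL
  have hLe : ∀ τ : ℂ, τ ≠ 0 → e (L τ / m) = τ := by
    intro τ hτ
    have : 2 * Real.pi * Complex.I * (L τ / m) = Complex.log τ := by
      rw [hL]; field_simp
    unfold e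
    rw [this, Complex.exp_log hτ]
  have hLm : ∀ τ : ℂ, τ ≠ 0 → e (L τ) = τ ^ m := by
    intro τ hτ
    have : 2 * Real.pi * Complex.I * L τ = m * Complex.log τ := by
      rw [hL]; field_simp
    unfold e
    rw [this, Complex.exp_nat_mul, Complex.exp_log hτ]
  have hpow : ∀ ρ : ℝ, ∀ τ : ℂ, ‖τ‖ < min ρ 1 → ‖τ ^ m‖ < ρ := by
    intro ρ τ hτ
    rw [norm_pow]
    refine lt_of_le_of_lt (pow_le_of_le_one (norm_nonneg _) ?_ hm0.ne') (hτ.trans_le (min_le_left _ _))
    exact (hτ.trans_le (min_le_right _ _)).le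
  have hLΩ : ∀ τ : ℂ, 0 < ‖τ‖ → ‖τ‖ < min r 1 → L τ ∈ Ω := by
    intro τ hτ hτr
    rw [hΩ, Set.mem_ofPred_eq, hΩim, hLm τ (norm_pos_iff.1 hτ)]
    exact hpow r τ hτr
  have hY : ∀ k, ∀ τ : ℂ, 0 < ‖τ‖ → ‖τ‖ < min r 1 → (ψ (τ ^ m), η k (L τ)) ∈ B.pts := by
    intro k τ hτ hτr
    have := (hη k (L τ) (hLΩ τ hτ hτr)).2
    simpa only [hLm τ (norm_pos_iff.1 hτ)] using this
  have hmin : 0 < min r 1 := by positivity
  refine ⟨m, fun k τ => η k (L τ), hm0, fun k => ?_, ?_⟩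
  · obtain ⟨C, K, r2, hr2, hgr⟩ := puis_growth B ψ hψ
    refine meromorphicAt_of_growth _ ?_ C (m * K) ?_
    · refine puis_ev (min r 1) hmin fun τ₀ hτ₀ hτ₀r => ?_
      have hne : τ₀ ≠ 0 := norm_pos_iff.1 hτ₀
      set G : ℂ → ℂ := fun τ => L τ₀ + m * Complex.log (τ / τ₀) / (2 * Real.pi * Complex.I) with hG
      have hG0 : G τ₀ = L τ₀ := by simp [hG, div_self hne]
      have hGan : AnalyticAt ℂ G τ₀ := by
        have hs : τ₀ / τ₀ ∈ Complex.slitPlane := by
          rw [div_self hne]; exact Complex.one_mem_slitPlane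
        have h1 : AnalyticAt ℂ (fun τ : ℂ => τ / τ₀) τ₀ := by fun_prop
        have h2 : AnalyticAt ℂ (fun τ : ℂ => Complex.log (τ / τ₀)) τ₀ := h1.clog hs
        have h3 : AnalyticAt ℂ (fun τ : ℂ => m * Complex.log (τ / τ₀)) τ₀ := by fun_prop
        have h4 : AnalyticAt ℂ (fun τ : ℂ => m * Complex.log (τ / τ₀) / (2 * Real.pi * Complex.I)) τ₀ :=
          h3.div analyticAt_const hpi
        exact analyticAt_const.add h4
      have hηG : AnalyticAt ℂ (fun τ => η k (G τ)) τ₀ := by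
        have h1 : AnalyticAt ℂ (η k) (G τ₀) := by
          rw [hG0]; exact (hη k (L τ₀) (hLΩ τ₀ hτ₀ hτ₀r)).1
        exact h1.comp hGan
      refine hηG.congr ?_
      have e1 : ∀ᶠ τ in 𝓝 τ₀, G τ ∈ Ω :=
        hGan.continuousAt.eventually_mem (hΩo.mem_nhds (by rw [hG0]; exact hLΩ τ₀ hτ₀ hτ₀r))
      have e2 : ∀ᶠ τ in 𝓝 τ₀, 0 < ‖τ‖ ∧ ‖τ‖ < min r 1 :=
        (continuous_norm.continuousAt.eventually (lt_mem_nhds hτ₀)).and
          (continuous_norm.continuousAt.eventually (gt_mem_nhds hτ₀r))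
      filter_upwards [e1, e2] with τ h1 h2
      have hτne : τ ≠ 0 := norm_pos_iff.1 h2.1
      refine hper' k _ h1 _ (hLΩ τ h2.1 h2.2) ?_
      rw [hLe τ hτne]
      have : 2 * Real.pi * Complex.I * (G τ / m) = Complex.log τ₀ + Complex.log (τ / τ₀) := by
        rw [hG, hL]; field_simp
      unfold e
      rw [this, Complex.exp_add, Complex.exp_log hne, Complex.exp_log (div_ne_zero hτne hne)]
      field_simp
    · refine puis_ev (min (min r 1) (min r2 1)) (by positivity) fun τ hτ hτr => ?_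
      have h1 := hτr.trans_le (min_le_left _ _)
      have h2 := hτr.trans_le (min_le_right _ _)
      have hp : 0 < ‖τ ^ m‖ := by rw [norm_pow]; positivity
      have := hgr (τ ^ m) hp (hpow r2 τ h2) _ (hY k τ hτ h1)
      rw [norm_pow, ← inv_pow, ← pow_mul] at this
      exact this
  · refine puis_ev (min r 1) hmin fun τ hτ hτr => ⟨fun k => hY k τ hτ hτr, ?_⟩
    exact hinj (L τ) (hLΩ τ hτ hτr)

end MP_cb3775_ag
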