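import Mathlib

/-!
# One variable: growth and meromorphy

Hints: removable singularities (`Complex.analyticAt_of_differentiable_on_punctured_nhds_of_continuousAt`,
`Complex.differentiableOn_update_limUnder_of_bddAbove`), Cauchy estimates for `entire_poly`
(`Complex.norm_iteratedDeriv_le_of_forall_mem_sphere_norm_le` or power series at `0`).
-/

set_option autoImplicit false

namespace MP_cb3775_ag

open Filter Topology

/-- A function holomorphic in a punctured neighbourhood of `0` with `‖f t‖ ≤ C * ‖t‖⁻¹ ^ k` is meromorphic at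
`0`. -/
theorem meromorphicAt_of_growth (f : ℂ → ℂ) (hol : ∀ᶠ t in 𝓝[≠] (0 : ℂ), AnalyticAt ℂ f t) (C : ℝ)
    (k : ℕ) (hg : ∀ᶠ t in 𝓝[≠] (0 : ℂ), ‖f t‖ ≤ C * (‖t‖⁻¹) ^ k) : MeromorphicAt f 0 := by
  refine ⟨k + 1, ?_⟩
  have hF0 : ((0 : ℂ) - 0) ^ (k + 1) • f 0 = 0 := by simp
  refine Complex.analyticAt_of_differentiable_on_punctured_nhds_of_continuousAt ?_ ?_
  · filter_upwards [hol] with t ht
    have h1 : DifferentiableAt ℂ f t := ht.differentiableAt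
    have h2 : DifferentiableAt ℂ (fun z : ℂ => (z - 0) ^ (k + 1)) t := by fun_prop
    exact h2.smul h1
  · rw [continuousAt_iff_punctured_nhds, hF0]
    have h1 : Tendsto (fun t : ℂ => |C| * ‖t‖) (𝓝[≠] 0) (𝓝 0) := by
      have h2 : Tendsto (fun t : ℂ => |C| * ‖t‖) (𝓝 0) (𝓝 (|C| * ‖(0 : ℂ)‖)) :=
        (continuous_const.mul continuous_norm).tendsto 0
      rw [norm_zero, mul_zero] at h2
      exact h2.mono_left nhdsWithin_le_nhds
    refine squeeze_zero_norm' ?_ h1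
    filter_upwards [hg, self_mem_nhdsWithin] with t ht ht0
    have ht1 : 0 < ‖t‖ := norm_pos_iff.mpr ht0
    have h3 : ‖f t‖ ≤ |C| * (‖t‖⁻¹) ^ k :=
      ht.trans (mul_le_mul_of_nonneg_right (le_abs_self C) (by positivity))
    calc ‖(t - 0) ^ (k + 1) • f t‖ = ‖t‖ ^ (k + 1) * ‖f t‖ := by
          rw [sub_zero, norm_smul, norm_pow]
      _ ≤ ‖t‖ ^ (k + 1) * (|C| * (‖t‖⁻¹) ^ k) := by gcongr
      _ = |C| * ‖t‖ := by
          rw [inv_pow]
          field_simp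
          ring

/-- Conversely. -/
theorem growth_of_meromorphicAt (f : ℂ → ℂ) (hf : MeromorphicAt f 0) :
    ∃ (C : ℝ) (k : ℕ), 0 ≤ C ∧ ∀ᶠ t in 𝓝[≠] (0 : ℂ), ‖f t‖ ≤ C * (‖t‖⁻¹) ^ k := by
  obtain ⟨n, hn⟩ := hf
  obtain ⟨C, hC⟩ : ∃ C : ℝ, C = ‖(0 - (0 : ℂ)) ^ n • f 0‖ + 1 := ⟨_, rfl⟩
  have hC0 : 0 ≤ C := by rw [hC]; positivity
  refine ⟨C, n, hC0, ?_⟩
  have h1 : ∀ᶠ t in 𝓝 (0 : ℂ), ‖(t - 0) ^ n • f t‖ < C := by
    have h2 := hn.continuousAt.norm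
    refine h2.eventually_lt continuousAt_const ?_
    rw [hC]
    exact lt_add_one _
  filter_upwards [nhdsWithin_le_nhds h1, self_mem_nhdsWithin] with t ht ht0
  have ht1 : 0 < ‖t‖ := norm_pos_iff.mpr ht0
  rw [sub_zero, norm_smul, norm_pow] at ht
  rw [inv_pow, ← div_eq_mul_inv, le_div_iff₀ (by positivity), mul_comm]
  exact ht.le

/-- If `f (τ ^ m)` is meromorphic in `τ` at `0` and `f` is holomorphic in a punctured neighbourhood of `0`,
then `f` is meromorphic at `0`. -/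
theorem meromorphicAt_of_pow (f : ℂ → ℂ) (hol : ∀ᶠ t in 𝓝[≠] (0 : ℂ), AnalyticAt ℂ f t) (m : ℕ)
    (hm : 0 < m) (h : MeromorphicAt (fun τ => f (τ ^ m)) 0) : MeromorphicAt f 0 := by
  obtain ⟨C, k, hC, hg⟩ := growth_of_meromorphicAt _ h
  refine meromorphicAt_of_growth f hol C k ?_
  rw [eventually_nhdsWithin_iff, Metric.eventually_nhds_iff] at hg ⊢
  obtain ⟨δ, hδ, hδ2⟩ := hg
  refine ⟨min 1 (δ ^ m), lt_min one_pos (pow_pos hδ m), ?_⟩
  intro t ht ht0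
  rw [dist_zero_right, lt_min_iff] at ht
  obtain ⟨τ, hτ⟩ : ∃ τ : ℂ, τ ^ m = t := IsAlgClosed.exists_pow_nat_eq t hm
  have ht0' : t ≠ 0 := ht0
  have hτ0 : τ ≠ 0 := by
    rintro rfl
    rw [zero_pow hm.ne'] at hτ
    exact ht0' hτ.symm
  have hnorm : ‖τ‖ ^ m = ‖t‖ := by rw [← norm_pow, hτ]
  have h1 : ‖τ‖ < δ := by
    refine lt_of_pow_lt_pow_left₀ m hδ.le ?_
    rw [hnorm]
    exact ht.2
  have h2 : ‖τ‖ ≤ 1 := by
    by_contra hlt
    rw [not_le] at hlt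
    have h3 : 1 < ‖τ‖ ^ m := one_lt_pow₀ hlt hm.ne'
    rw [hnorm] at h3
    linarith [ht.1]
  have h3 : ‖t‖ ≤ ‖τ‖ := by
    rw [← hnorm]
    exact pow_le_of_le_one (norm_nonneg τ) h2 hm.ne'
  have h4 := hδ2 (by rwa [dist_zero_right]) hτ0
  rw [hτ] at h4
  have ht1 : 0 < ‖t‖ := norm_pos_iff.mpr ht0'
  refine h4.trans ?_
  gcongr

end MP_cb3775_ag
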