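import Pool.Agent.Lib.MP_cb3775_ag.C.Trace

/-!
# `S` is connected

PROOF. If `S` is the union of two disjoint relatively open sets `S1, S2`, both nonempty, let `q = 1` on `S1` and
`q = 0` elsewhere. `q` is holomorphic on `S` (locally constant) and along an arc it is locally constant on
a punctured disc, which is connected, so constant, so meromorphic. By `isRational_of_arcs`
`β q = α` on `S`; `α (α - β) = β ^ 2 q (q - 1) = 0` on `S`, so (`Base.mul_vanish`) `α = 0` or `α = β` on `S`, so `q`
is constant on `{β ≠ 0}`, which is dense (`Base.eq_of_eq_on_ne`), so `q` is constant on `S`: contradiction.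
-/

set_option autoImplicit false

namespace MP_cb3775_ag

open Filter Topology

/-- a locally constant function on a preconnected set is constant. -/
private theorem sconn_const {X E : Type} [TopologicalSpace X] {s : Set X} (hs : IsPreconnected s)
    (f : X → E) (h : ∀ x ∈ s, ∀ᶠ y in 𝓝[s] x, f y = f x) : ∀ x ∈ s, ∀ y ∈ s, f x = f y := by
  let _ : TopologicalSpace E := ⊥
  have : DiscreteTopology E := ⟨rfl⟩
  intro x hx y hy
  refine hs.constant (f := f) ?_ hx hy
  intro z hz
  exact (continuousWithinAt_const (b := f z)).congr_of_eventuallyEq (h z hz) rfl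

/-- the punctured disc is connected. -/
private theorem sconn_disc (r : ℝ) (hr : 0 < r) :
    IsPreconnected {t : ℂ | t ≠ 0 ∧ ‖t‖ < r} := by
  have h1 : {t : ℂ | t ≠ 0 ∧ ‖t‖ < r} = Complex.exp '' {z : ℂ | z.re < Real.log r} := by
    ext t
    constructor
    · rintro ⟨h0, ht⟩
      refine ⟨Complex.log t, ?_, Complex.exp_log h0⟩
      show (Complex.log t).re < Real.log r
      rw [Complex.log_re]
      exact Real.log_lt_log (norm_pos_iff.mpr h0) ht
    · rintro ⟨z, hz, rfl⟩
      refine ⟨Complex.exp_ne_zero z, ?_⟩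
      rw [Complex.norm_exp]
      have hz' : z.re < Real.log r := hz
      calc Real.exp z.re < Real.exp (Real.log r) := Real.exp_lt_exp.mpr hz'
        _ = r := Real.exp_log hr
  rw [h1]
  exact (convex_halfSpace_re_lt _).isPreconnected.image _ Complex.continuous_exp.continuousOn

private theorem sconn_key {n : ℕ} (B : Base n) (q : Pt n → ℂ) (h01 : ∀ s, q s = 0 ∨ q s = 1)
    (h : ∀ s ∈ B.pts, ∀ᶠ t in 𝓝[B.pts] s, q t = q s) : ∀ s ∈ B.pts, ∀ t ∈ B.pts, q s = q t := by
  have hol : ∀ s ∈ B.pts, B.HolAt q s := fun s hs => ⟨fun _ => q s, analyticAt_const, h s hs⟩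
  have harc : IsArcMero B q := by
    refine ⟨hol, fun φ hφ hmem => ?_⟩
    have h1 := hφ.eventually_analyticAt.and hmem
    rw [eventually_nhdsWithin_iff, Metric.eventually_nhds_iff] at h1
    obtain ⟨r, hr, h1⟩ := h1
    have h2 : ∀ t ∈ {t : ℂ | t ≠ 0 ∧ ‖t‖ < r}, AnalyticAt ℂ φ t ∧ φ t ∈ B.pts := by
      rintro t ⟨h0, ht⟩
      exact h1 (by rwa [dist_zero_right]) h0
    have h3 := sconn_const (sconn_disc r hr) (fun t => q (φ t)) (by
      intro t ht
      have hc : Tendsto φ (𝓝[{t : ℂ | t ≠ 0 ∧ ‖t‖ < r}] t) (𝓝[B.pts] (φ t)) := by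
        apply tendsto_nhdsWithin_of_tendsto_nhds_of_eventually_within
        · exact (h2 t ht).1.continuousAt.tendsto.mono_left nhdsWithin_le_nhds
        · filter_upwards [self_mem_nhdsWithin] with w hw
          exact (h2 w hw).2
      exact hc.eventually (h (φ t) (h2 t ht).2))
    have h4 : ((r / 2 : ℝ) : ℂ) ∈ {t : ℂ | t ≠ 0 ∧ ‖t‖ < r} := by
      refine ⟨by exact_mod_cast (half_pos hr).ne', ?_⟩
      rw [Complex.norm_real, Real.norm_eq_abs, abs_of_pos (half_pos hr)]
      exact half_lt_self hr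
    refine (MeromorphicAt.const (q (φ ((r / 2 : ℝ) : ℂ))) 0).congr ?_
    rw [Filter.EventuallyEq, eventually_nhdsWithin_iff, Metric.eventually_nhds_iff]
    refine ⟨r, hr, fun t ht h0 => ?_⟩
    exact h3 _ h4 t ⟨h0, by rwa [dist_zero_right] at ht⟩
  obtain ⟨α, β, hβ, hαβ⟩ := isRational_of_arcs B q harc
  have hv : ∀ s ∈ B.pts, evalAt s α * evalAt s (α - β) = 0 := by
    intro s hs
    rw [map_sub, ← hαβ s hs]
    rcases h01 s with h0 | h0
    · rw [h0]; ring
    · rw [h0]; ring
  have hcst : ∀ c : ℂ, (∀ s ∈ B.pts, evalAt s β ≠ 0 → q s = c) →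
      ∀ s ∈ B.pts, ∀ t ∈ B.pts, q s = q t := by
    intro c hc s hs t ht
    have h5 := B.eq_of_eq_on_ne β hβ q (fun _ => c)
      (fun u hu => Base.HolAt.continuousWithinAt (hol u hu) hu) continuousOn_const hc
    rw [h5 s hs, h5 t ht]
  rcases B.mul_vanish hv with h5 | h5
  · refine hcst 0 fun s hs hne => ?_
    have h6 := hαβ s hs
    rw [h5 s hs] at h6
    exact (mul_eq_zero.mp h6).resolve_left hne
  · refine hcst 1 fun s hs hne => ?_
    have h6 := hαβ s hs
    have h7 := h5 s hs
    rw [map_sub, sub_eq_zero] at h7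
    rw [h7] at h6
    exact mul_left_cancel₀ hne (by rw [h6, mul_one])

/-- A function which is locally constant on `S` is constant. -/
theorem const_of_locConst {n : ℕ} (B : Base n) {E : Type} (f : Pt n → E)
    (h : ∀ s ∈ B.pts, ∀ᶠ t in 𝓝[B.pts] s, f t = f s) : ∀ s ∈ B.pts, ∀ t ∈ B.pts, f s = f t := by
  classical
  intro s hs t ht
  have h1 := sconn_key B (fun u => if f u = f s then (1 : ℂ) else 0)
    (fun u => by
      by_cases hu : f u = f s
      · right; simp [hu]
      · left; simp [hu])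
    (fun u hu => by
      filter_upwards [h u hu] with v hv
      rw [hv]) s hs t ht
  by_contra hne
  have h2 : ¬ f t = f s := fun h3 => hne h3.symm
  simp only [if_true, if_neg h2] at h1
  exact one_ne_zero h1

theorem isPreconnected_pts {n : ℕ} (B : Base n) : IsPreconnected B.pts := by
  rintro U V hU hV hUV ⟨s, hs, hsU⟩ ⟨t, ht, htV⟩
  by_contra hne
  rw [Set.not_nonempty_iff_eq_empty] at hne
  have hno : ∀ u ∈ B.pts, u ∈ V → u ∉ U := fun u hu huV huU => by
    have : u ∈ B.pts ∩ (U ∩ V) := ⟨hu, huU, huV⟩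
    rw [hne] at this
    exact this
  have h1 := const_of_locConst B (fun u => u ∈ U) (fun u hu => by
    rcases hUV hu with h2 | h2
    · filter_upwards [mem_nhdsWithin_of_mem_nhds (hU.mem_nhds h2)] with v hv
      exact propext ⟨fun _ => h2, fun _ => hv⟩
    · filter_upwards [mem_nhdsWithin_of_mem_nhds (hV.mem_nhds h2), self_mem_nhdsWithin]
        with v hv hvS
      exact propext ⟨fun h3 => absurd h3 (hno v hvS hv), fun h3 => absurd h3 (hno u hu h2)⟩)
      s hs t ht
  have h2 : t ∈ U := by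
    have h3 : (s ∈ U) = (t ∈ U) := h1
    rw [← h3]
    exact hsU
  exact hno t ht htV h2

end MP_cb3775_ag
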