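import Pool.Agent.Lib.MP_cb3775_ag.C.Punct
import Pool.Agent.Lib.MP_cb3775_ag.C.Conn

/-!
# A holomorphic function on the complement of a hypersurface which is meromorphic along all arcs is rational

PROOF of `rational_of_arcs` by induction on `n`. `n = 0` trivial. Step to `n + 1`, `x = Fin.cons l x'`. Let
`δ' ≠ 0` be the leading coefficient of `δ` as a polynomial in `l = x 0` (`MvPolynomial.finSuccEquiv`). For
`x'` with `δ' x' ≠ 0`, `h (Fin.cons l x')` is a function of `l` as in `rational_line` (arcs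
`t ↦ Fin.cons (l + t) x'`, `t ↦ Fin.cons t⁻¹ x'`), so `δ ^ k * h` is a polynomial in `l` of some degree
`≤ d` (`slice`). For `k, d` let `Z k d` be the set of the `x'` with `δ' x' ≠ 0` for which the divided difference
`∑ j, (δ ^ k h) (l_j, x') / ∏ (i ≠ j), (l_j - l_i)` vanishes for all `d + 2` distinct numbers `l_j` with
`δ (l_j, x') ≠ 0`. It is relatively closed in the open set `{δ' ≠ 0}` (its complement is open: the
functions are continuous where `δ ≠ 0`), and the union over `k, d` is everything; Baire: some `Z k d`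
contains a nonempty open set `O` (`bounded_degree`). Choose distinct `l_0, .., l_d` and a point of `O` with
`δ (l_j, x') ≠ 0` for all `j` and shrink `O`: on `O` (Lagrange) `δ ^ k h (l, x') = ∑ j, L_j (l) *
(δ ^ k h) (l_j, x')` whenever `δ (l, x') ≠ 0`. By induction every `x' ↦ h (l_j, x')` is rational (it is
holomorphic outside `δ (l_j, .) = 0` and meromorphic along arcs), so a nonzero polynomial multiple
of `h` is a polynomial on a nonempty open set, and so everywhere by `identity_ne`.
-/

set_option autoImplicit false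

namespace MP_cb3775_ag

open Filter Topology

/-- the hypotheses of the theorem. -/
def ArcRational {n : ℕ} (δ : MvPolynomial (Fin n) ℂ) (h : (Fin n → ℂ) → ℂ) : Prop :=
  (∀ x, MvPolynomial.eval x δ ≠ 0 → AnalyticAt ℂ h x) ∧
  ∀ ψ : ℂ → (Fin n → ℂ), MeromorphicAt ψ 0 →
    (∀ᶠ t in 𝓝[≠] (0 : ℂ), MvPolynomial.eval (ψ t) δ ≠ 0) → MeromorphicAt (fun t => h (ψ t)) 0


private theorem slice_analytic_cons {n : ℕ} (x' : Fin n → ℂ) (g : ℂ → ℂ) (z : ℂ) (hg : AnalyticAt ℂ g z) :
    AnalyticAt ℂ (fun l : ℂ => (Fin.cons (g l) x' : Fin (n + 1) → ℂ)) z := by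
  rw [analyticAt_pi_iff]
  intro i
  refine Fin.cases ?_ (fun j => ?_) i
  · simpa using hg
  · simpa using (analyticAt_const : AnalyticAt ℂ (fun _ : ℂ => x' j) z)

private theorem slice_cons_analytic {n : ℕ} (l : ℂ) (x' : Fin n → ℂ) :
    AnalyticAt ℂ (fun y : Fin n → ℂ => (Fin.cons l y : Fin (n + 1) → ℂ)) x' := by
  rw [analyticAt_pi_iff]
  intro i
  refine Fin.cases ?_ (fun j => ?_) i
  · simpa using (analyticAt_const : AnalyticAt ℂ (fun _ : Fin n → ℂ => l) x')
  · exact (ContinuousLinearMap.proj (R := ℂ) (φ := fun _ : Fin n => ℂ) j).analyticAt x'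

private theorem slice_finite_ne (d : Polynomial ℂ) (hd : d ≠ 0) : {z : ℂ | d.eval z = 0}.Finite := by
  refine (d.roots.toFinset.finite_toSet).subset fun z hz => ?_
  simp only [Finset.mem_coe, Multiset.mem_toFinset, Polynomial.mem_roots hd, Polynomial.IsRoot]
  exact hz

private theorem slice_eventually_ne (d : Polynomial ℂ) (hd : d ≠ 0) (z : ℂ) :
    ∀ᶠ t in 𝓝[≠] (0 : ℂ), d.eval (z + t) ≠ 0 := by
  have hF : ({z : ℂ | d.eval z = 0} \ {z}).Finite := (slice_finite_ne d hd).subset Set.sdiff_subset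
  have h1 : ∀ᶠ w in 𝓝 z, w ∉ ({z : ℂ | d.eval z = 0} \ {z}) :=
    hF.isClosed.isOpen_compl.eventually_mem (by simp)
  have h2 : Tendsto (fun t : ℂ => z + t) (𝓝[≠] (0 : ℂ)) (𝓝 z) := by
    have : Tendsto (fun t : ℂ => z + t) (𝓝 (0 : ℂ)) (𝓝 (z + 0)) :=
      (continuous_const.add continuous_id).tendsto 0
    rw [add_zero] at this
    exact this.mono_left nhdsWithin_le_nhds
  filter_upwards [h2.eventually h1, self_mem_nhdsWithin] with t ht ht0 h0
  exact ht ⟨h0, by simpa using ht0⟩

private theorem slice_eventually_inf (d : Polynomial ℂ) (hd : d ≠ 0) :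
    ∀ᶠ t in 𝓝[≠] (0 : ℂ), d.eval t⁻¹ ≠ 0 := by
  have h1 : ∀ᶠ w in Bornology.cobounded ℂ, d.eval w ≠ 0 :=
    Bornology.le_cofinite ℂ (slice_finite_ne d hd).compl_mem_cofinite
  exact tendsto_inv₀_nhdsNE_zero.eventually h1

/-- on the lines parallel to the first axis. -/
theorem slice {n : ℕ} (δ : MvPolynomial (Fin (n + 1)) ℂ) (h : (Fin (n + 1) → ℂ) → ℂ)
    (hh : ArcRational δ h) (x' : Fin n → ℂ)
    (hx : ∃ l : ℂ, MvPolynomial.eval (Fin.cons l x') δ ≠ 0) :
    ∃ (k : ℕ) (A : Polynomial ℂ), ∀ l : ℂ, MvPolynomial.eval (Fin.cons l x') δ ≠ 0 →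
      (MvPolynomial.eval (Fin.cons l x') δ) ^ k * h (Fin.cons l x') = A.eval l := by
  set d : Polynomial ℂ :=
    Polynomial.map (MvPolynomial.eval x') (MvPolynomial.finSuccEquiv ℂ n δ) with hd_def
  have hev : ∀ l : ℂ, MvPolynomial.eval (Fin.cons l x') δ = d.eval l := fun l =>
    MvPolynomial.eval_eq_eval_mv_eval' x' l δ
  have hd : d ≠ 0 := by
    obtain ⟨l, hl⟩ := hx
    intro h0
    rw [hev, h0, Polynomial.eval_zero] at hl
    exact hl rfl
  suffices H : ∃ (k : ℕ) (A : Polynomial ℂ), ∀ z, d.eval z ≠ 0 →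
      (d.eval z) ^ k * h (Fin.cons z x') = A.eval z by
    obtain ⟨k, A, hA⟩ := H
    exact ⟨k, A, fun l hl => by rw [hev] at hl ⊢; exact hA l hl⟩
  refine rational_line d hd (fun l => h (Fin.cons l x')) ?_ ?_ ?_
  · intro z hz
    have h1 : AnalyticAt ℂ h (Fin.cons z x') := hh.1 _ (by rw [hev]; exact hz)
    exact AnalyticAt.fun_comp (f := fun l : ℂ => (Fin.cons l x' : Fin (n + 1) → ℂ)) h1
      (slice_analytic_cons x' (fun l => l) z analyticAt_id)
  · intro z _
    have h1 : MeromorphicAt (fun t => h (Fin.cons (z + t) x')) 0 := by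
      refine hh.2 (fun t => Fin.cons (z + t) x') ?_ ?_
      · exact (slice_analytic_cons x' (fun t => z + t) 0
          (analyticAt_const.add analyticAt_id)).meromorphicAt
      · filter_upwards [slice_eventually_ne d hd z] with t ht
        rw [hev]
        exact ht
    have h2 : MeromorphicAt (fun t => h (Fin.cons (z + t) x')) (z - z) := by
      rw [sub_self]; exact h1
    have h3 := h2.comp_analyticAt (g := fun l : ℂ => l - z) (x := z)
      (analyticAt_id.sub analyticAt_const)
    refine h3.congr ?_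
    filter_upwards with l
    simp
  · refine hh.2 (fun t => Fin.cons t⁻¹ x') ?_ ?_
    · refine ⟨2, ?_⟩
      have h1 : (fun t : ℂ => (t - 0) ^ 2 • (Fin.cons t⁻¹ x' : Fin (n + 1) → ℂ)) =
          fun t : ℂ => (Fin.cons t (t ^ 2 • x') : Fin (n + 1) → ℂ) := by
        funext t i
        refine Fin.cases ?_ (fun j => ?_) i
        · simp only [sub_zero, Pi.smul_apply, Fin.cons_zero, smul_eq_mul]
          by_cases ht : t = 0
          · simp [ht]
          · field_simp
        · simp
      rw [h1, analyticAt_pi_iff]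
      intro i
      refine Fin.cases ?_ (fun j => ?_) i
      · have h3 : AnalyticAt ℂ (fun t : ℂ => t) 0 := analyticAt_id
        simp only [Fin.cons_zero]
        exact h3
      · have h2 : AnalyticAt ℂ (fun t : ℂ => t ^ 2 * x' j) 0 :=
          (analyticAt_id.pow 2).mul analyticAt_const
        simp only [Pi.smul_apply, Fin.cons_succ, smul_eq_mul]
        exact h2
    · filter_upwards [slice_eventually_inf d hd] with t ht
      rw [hev]
      exact ht

/-- the restriction to a hyperplane `x 0 = l` satisfies the hypotheses again. -/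
theorem arcRational_slice {n : ℕ} (δ : MvPolynomial (Fin (n + 1)) ℂ)
    (h : (Fin (n + 1) → ℂ) → ℂ) (hh : ArcRational δ h) (l : ℂ) :
    ∃ δl : MvPolynomial (Fin n) ℂ,
      (∀ x', MvPolynomial.eval x' δl = MvPolynomial.eval (Fin.cons l x') δ) ∧
      ArcRational δl (fun x' => h (Fin.cons l x')) := by
  have hev : ∀ x' : Fin n → ℂ,
      MvPolynomial.eval x' (Polynomial.eval (MvPolynomial.C l) (MvPolynomial.finSuccEquiv ℂ n δ)) =
        MvPolynomial.eval (Fin.cons l x') δ := by
    intro x'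
    rw [MvPolynomial.eval_eq_eval_mv_eval', Polynomial.eval_map,
      ← Polynomial.eval₂_at_apply, MvPolynomial.eval_C]
  refine ⟨Polynomial.eval (MvPolynomial.C l) (MvPolynomial.finSuccEquiv ℂ n δ), hev, ?_, ?_⟩
  · intro x' hx'
    have h1 : AnalyticAt ℂ h (Fin.cons l x') := hh.1 _ (by rw [← hev]; exact hx')
    exact AnalyticAt.fun_comp (f := fun y : Fin n → ℂ => (Fin.cons l y : Fin (n + 1) → ℂ)) h1
      (slice_cons_analytic l x')
  · intro ψ hψ hne
    refine hh.2 (fun t => Fin.cons l (ψ t)) ?_ ?_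
    · obtain ⟨k, hk⟩ := hψ
      refine ⟨k, ?_⟩
      rw [analyticAt_pi_iff] at hk ⊢
      intro i
      refine Fin.cases ?_ (fun j => ?_) i
      · have h1 : AnalyticAt ℂ (fun t : ℂ => t ^ k * l) 0 :=
          (analyticAt_id.pow k).mul analyticAt_const
        simp only [sub_zero, Pi.smul_apply, Fin.cons_zero, smul_eq_mul]
        exact h1
      · simpa using hk j
    · filter_upwards [hne] with t ht
      rw [← hev]
      exact ht

end MP_cb3775_ag
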