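import Pool.Agent.Lib.MP_cb3775_ag.C.Slice
import Pool.Agent.Lib.MP_cb3775_ag.C.Puis

/-!
# Holomorphic functions on `S` which are meromorphic along all arcs are rational

PROOF. `trace_arcRational`: near `x0` the roots are `natDegree P` analytic sections `σ_k`
(`Base.section_exists`, `Base.card_roots`), so the trace is `∑ k, q (x, σ_k x) * σ_k x ^ j`, analytic. Along an
arc `ψ` use `puiseux`: `h (ψ (τ ^ m)) = ∑ k, q (ψ (τ ^ m), Y k τ) * Y k τ ^ j` near `0`, a sum of
meromorphic functions by the arc hypothesis, then `meromorphicAt_of_pow`.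
`isRational_of_arcs`: by `rational_of_arcs` the traces `h_j`, `j < natDegree P`, are rational with a common
denominator `b`. Write `P (x, Y) = (Y - y) * ∑ j, b_j (x, y) Y ^ j` modulo `P (x, y) = 0`, `b_j` polynomials in
`x, y` (`b_j = ∑ (i > j), P_i * y ^ (i - 1 - j)`). For a point `(x, y)` of `S`:
`∑ j, b_j (x, y) * h_j x = q (x, y) * P_Y (x, y)` (the other roots give `0`), where `P_Y` = derivative of `P` in
`y`, not zero on `S` (`Base.deriv_ne`). So `β = C b * derivative P`.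
-/

set_option autoImplicit false

namespace MP_cb3775_ag

open Filter Topology

variable {n : ℕ} (B : Base n)

/-- Holomorphic on `S` and meromorphic along all arcs. -/
def IsArcMero (q : Pt n → ℂ) : Prop :=
  (∀ s ∈ B.pts, B.HolAt q s) ∧ ∀ φ : ℂ → Pt n, MeromorphicAt φ 0 →
    (∀ᶠ t in 𝓝[≠] (0 : ℂ), φ t ∈ B.pts) → MeromorphicAt (fun t => q (φ t)) 0

noncomputable def trace (q : Pt n → ℂ) (j : ℕ) (x : Fin n → ℂ) : ℂ :=
  ∑ y ∈ (B.P.map (MvPolynomial.eval x)).roots.toFinset, q (x, y) * y ^ j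

/-- the roots near `x₀` are the values of finitely many sections. -/
private theorem tr0_roots_eq (x₀ : Fin n → ℂ) (h₀ : MvPolynomial.eval x₀ B.δ ≠ 0)
    (σ : ℂ → (Fin n → ℂ) → ℂ)
    (hσ : ∀ y ∈ (B.P.map (MvPolynomial.eval x₀)).roots.toFinset, B.IsSection (x₀, y) (σ y)) :
    ∀ᶠ x in 𝓝 x₀, Set.InjOn (fun y => σ y x)
        ((B.P.map (MvPolynomial.eval x₀)).roots.toFinset : Set ℂ) ∧
      (B.P.map (MvPolynomial.eval x)).roots.toFinset =
        (B.P.map (MvPolynomial.eval x₀)).roots.toFinset.image (fun y => σ y x) := by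
  set R₀ := (B.P.map (MvPolynomial.eval x₀)).roots.toFinset with hR₀
  have h1 : ∀ᶠ x in 𝓝 x₀, ∀ y ∈ R₀, (x, σ y x) ∈ B.pts := by
    rw [Filter.eventually_all_finset]
    intro y hy
    exact (hσ y hy).eventually_mem
  have h2 : ∀ᶠ x in 𝓝 x₀, ∀ y ∈ R₀, ∀ y' ∈ R₀, y ≠ y' → σ y x ≠ σ y' x := by
    rw [Filter.eventually_all_finset]
    intro y hy
    rw [Filter.eventually_all_finset]
    intro y' hy'
    by_cases hyy : y = y'
    · exact Filter.Eventually.of_forall fun x h => absurd hyy h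
    · have hc : ContinuousAt (fun x => σ y x - σ y' x) x₀ :=
        (hσ y hy).1.continuousAt.sub (hσ y' hy').1.continuousAt
      have hne : σ y x₀ - σ y' x₀ ≠ 0 := by
        have e1 : σ y x₀ = y := (hσ y hy).2.1
        have e2 : σ y' x₀ = y' := (hσ y' hy').2.1
        rw [e1, e2]
        exact sub_ne_zero.mpr hyy
      filter_upwards [hc.eventually_ne hne] with x hx _
      exact sub_ne_zero.mp hx
  have h3 : ∀ᶠ x in 𝓝 x₀, MvPolynomial.eval x B.δ ≠ 0 :=
    (analyticAt_mvEval B.δ x₀).continuousAt.eventually_ne h₀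
  filter_upwards [h1, h2, h3] with x hx1 hx2 hx3
  have hinj : Set.InjOn (fun y => σ y x) (R₀ : Set ℂ) := by
    intro y hy y' hy' hyy
    by_contra hne
    exact hx2 y hy y' hy' hne hyy
  refine ⟨hinj, ?_⟩
  symm
  apply Finset.eq_of_subset_of_card_le
  · intro z hz
    obtain ⟨y, hy, rfl⟩ := Finset.mem_image.mp hz
    exact (B.mem_roots x hx3 _).mpr (hx1 y hy)
  · rw [Finset.card_image_of_injOn hinj, B.card_roots x hx3, hR₀, B.card_roots x₀ h₀]

private theorem tr0_analytic (q : Pt n → ℂ) (hq : ∀ s ∈ B.pts, B.HolAt q s) (j : ℕ)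
    (x₀ : Fin n → ℂ) (h₀ : MvPolynomial.eval x₀ B.δ ≠ 0) :
    AnalyticAt ℂ (trace B q j) x₀ := by
  classical
  set R₀ := (B.P.map (MvPolynomial.eval x₀)).roots.toFinset with hR₀
  have hex : ∀ y : ℂ, ∃ σ : (Fin n → ℂ) → ℂ, y ∈ R₀ → B.IsSection (x₀, y) σ := by
    intro y
    by_cases hy : y ∈ R₀
    · obtain ⟨σ, hσ⟩ := B.section_exists (x₀, y) ((B.mem_roots x₀ h₀ y).mp hy)
      exact ⟨σ, fun _ => hσ⟩
    · exact ⟨fun _ => 0, fun h => absurd h hy⟩
  choose σ hσ using hex
  have hR := tr0_roots_eq B x₀ h₀ σ hσ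
  have ha : AnalyticAt ℂ (fun x => ∑ y ∈ R₀, q (x, σ y x) * (σ y x) ^ j) x₀ := by
    apply Finset.analyticAt_fun_sum
    intro y hy
    have hp : (x₀, y) ∈ B.pts := (B.mem_roots x₀ h₀ y).mp hy
    exact ((hq _ hp).comp_section (hσ y hy)).mul ((hσ y hy).1.pow j)
  refine ha.congr ?_
  filter_upwards [hR] with x hx
  unfold trace
  rw [hx.2, Finset.sum_image hx.1]

private theorem tr0_prod {E F : Type} [NormedAddCommGroup E] [NormedSpace ℂ E]
    [NormedAddCommGroup F] [NormedSpace ℂ F] {f : ℂ → E} {g : ℂ → F}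
    (hf : MeromorphicAt f 0) (hg : MeromorphicAt g 0) :
    MeromorphicAt (fun t => (f t, g t)) 0 := by
  obtain ⟨a, ha⟩ := hf
  obtain ⟨b, hb⟩ := hg
  refine ⟨a + b, ?_⟩
  have hid : AnalyticAt ℂ (fun z : ℂ => z - 0) 0 := analyticAt_id.sub analyticAt_const
  have h := ((hid.pow b).smul ha).prod ((hid.pow a).smul hb)
  refine h.congr (Filter.Eventually.of_forall fun z => ?_)
  show ((z - 0) ^ b • (z - 0) ^ a • f z, (z - 0) ^ a • (z - 0) ^ b • g z) =
    (z - 0) ^ (a + b) • (f z, g z)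
  rw [Prod.smul_mk, smul_smul, smul_smul, pow_add, mul_comm ((z - 0) ^ b) ((z - 0) ^ a)]

theorem trace_arcRational (q : Pt n → ℂ) (hq : IsArcMero B q) (j : ℕ) :
    ArcRational B.δ (trace B q j) := by
  refine ⟨fun x hx => tr0_analytic B q hq.1 j x hx, ?_⟩
  intro ψ hψ hδ
  obtain ⟨m, Y, hm, hY, hτ⟩ := puiseux B ψ hψ hδ
  have hpow : AnalyticAt ℂ (fun τ : ℂ => τ ^ m) 0 := analyticAt_id.pow m
  have hψm : MeromorphicAt (fun τ => ψ (τ ^ m)) 0 := by
    have h0 : MeromorphicAt ψ ((fun τ : ℂ => τ ^ m) 0) := by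
      simpa [zero_pow hm.ne'] using hψ
    exact MeromorphicAt.comp_analyticAt (f := ψ) (g := fun τ : ℂ => τ ^ m) h0 hpow
  refine meromorphicAt_of_pow (fun t => trace B q j (ψ t)) ?_ m hm ?_
  · filter_upwards [hψ.eventually_analyticAt, hδ] with t h1 h2
    exact (tr0_analytic B q hq.1 j (ψ t) h2).comp h1
  · have hsum : MeromorphicAt (fun τ => ∑ k, q (ψ (τ ^ m), Y k τ) * (Y k τ) ^ j) 0 := by
      apply MeromorphicAt.fun_sum
      intro k _
      have harc : MeromorphicAt (fun τ => ((ψ (τ ^ m), Y k τ) : Pt n)) 0 := tr0_prod hψm (hY k)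
      have hq' := hq.2 (fun τ => (ψ (τ ^ m), Y k τ)) harc (by
        filter_upwards [hτ] with τ h
        exact h.1 k)
      exact hq'.mul ((hY k).pow j)
    have htend : Tendsto (fun τ : ℂ => τ ^ m) (𝓝[≠] 0) (𝓝[≠] 0) := by
      apply tendsto_nhdsWithin_of_tendsto_nhds_of_eventually_within
      · have hc : Tendsto (fun τ : ℂ => τ ^ m) (𝓝 0) (𝓝 ((0 : ℂ) ^ m)) :=
          (continuous_pow m).tendsto 0
        rw [zero_pow hm.ne'] at hc
        exact hc.mono_left nhdsWithin_le_nhds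
      · filter_upwards [self_mem_nhdsWithin] with τ hτ0
        exact pow_ne_zero m hτ0
    refine hsum.congr ?_
    filter_upwards [hτ, htend.eventually hδ] with τ h h'
    have hcard : (B.P.map (MvPolynomial.eval (ψ (τ ^ m)))).roots.toFinset =
        Finset.univ.image fun k => Y k τ := by
      symm
      apply Finset.eq_of_subset_of_card_le
      · intro z hz
        obtain ⟨k, _, rfl⟩ := Finset.mem_image.mp hz
        exact (B.mem_roots _ h' _).mpr (h.1 k)
      · rw [Finset.card_image_of_injective _ h.2, B.card_roots _ h', Finset.card_univ,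
          Fintype.card_fin]
    unfold trace
    rw [hcard, Finset.sum_image fun a _ b _ hab => h.2 hab]

end MP_cb3775_ag
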