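import Pool.Agent.Lib.MP_cb3775_ag.C.Eul
import Pool.Agent.Lib.MP_cb3775_ag.C.Baire

/-!
# Holomorphic functions on `S` which are meromorphic along all arcs are rational

Proof text: see `C/Tr0.lean`.
-/

set_option autoImplicit false

namespace MP_cb3775_ag

open Filter Topology

variable {n : ℕ} (B : Base n)

private theorem trace_exists_point (D : MvPolynomial (Fin n) ℂ) (hD : D ≠ 0) :
    ∃ s ∈ B.pts, MvPolynomial.eval s.1 D ≠ 0 := by
  have h1 : D * B.δ ≠ 0 := mul_ne_zero hD B.ne_zero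
  obtain ⟨x, hx⟩ : ∃ x : Fin n → ℂ, MvPolynomial.eval x (D * B.δ) ≠ 0 := by
    by_contra hcon
    push Not at hcon
    exact h1 (MvPolynomial.funext fun x => by rw [hcon x, map_zero])
  rw [map_mul] at hx
  have hxD : MvPolynomial.eval x D ≠ 0 := left_ne_zero_of_mul hx
  have hxδ : MvPolynomial.eval x B.δ ≠ 0 := right_ne_zero_of_mul hx
  have hpos : 0 < B.P.natDegree := by
    rcases Nat.eq_zero_or_pos B.P.natDegree with h | h
    · exact absurd (B.monic.natDegree_eq_zero.mp h ▸ B.irreducible) not_irreducible_one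
    · exact h
  have hcard : 0 < (B.P.map (MvPolynomial.eval x)).roots.toFinset.card := by
    rw [B.card_roots x hxδ]
    exact hpos
  obtain ⟨y, hy⟩ := Finset.card_pos.mp hcard
  exact ⟨(x, y), (B.mem_roots x hxδ y).mp hy, hxD⟩

theorem isRational_of_arcs (q : Pt n → ℂ) (hq : IsArcMero B q) : B.IsRational q := by
  have hj : ∀ j : ℕ, ∃ A b : MvPolynomial (Fin n) ℂ, b ≠ 0 ∧ ∀ x,
      MvPolynomial.eval x B.δ ≠ 0 →
      MvPolynomial.eval x b * trace B q j x = MvPolynomial.eval x A := fun j =>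
    rational_of_arcs B.δ B.ne_zero _ (trace_arcRational B q hq j)
  choose A b hb hAb using hj
  obtain ⟨c, hc⟩ := trace_euler B
  have hD : (∏ j ∈ Finset.range B.P.natDegree, b j) ≠ 0 :=
    Finset.prod_ne_zero_iff.mpr fun j _ => hb j
  refine ⟨∑ j ∈ Finset.range B.P.natDegree,
      c j * Polynomial.C (A j * ∏ i ∈ (Finset.range B.P.natDegree).erase j, b i),
    Polynomial.C (∏ j ∈ Finset.range B.P.natDegree, b j) * Polynomial.derivative B.P, ?_, ?_⟩
  · obtain ⟨s, hs, hsD⟩ := trace_exists_point B _ hD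
    refine ⟨s, hs, ?_⟩
    rw [map_mul, evalAt_C]
    exact mul_ne_zero hsD (B.deriv_ne s hs)
  · intro s hs
    rw [map_mul, evalAt_C, map_sum, mul_assoc, mul_comm (evalAt s (Polynomial.derivative B.P)),
      ← hc q s hs, Finset.mul_sum]
    refine Finset.sum_congr rfl fun j hjr => ?_
    rw [map_mul, evalAt_C, map_mul, ← hAb j s.1 hs.1, ← Finset.mul_prod_erase _ _ hjr, map_mul]
    ring

end MP_cb3775_ag
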